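import Pool.Agent.Lib.Nibble.Stmts

/-!
One bite of the weighted nibble: expectation over a random set of edges.
-/

set_option autoImplicit false

namespace Pool.Agent.Nibble

open Finset

namespace BiteP

/-! ### expectation -/

section expectation

set_option linter.unusedSectionVars false

variable {ι : Type} [Fintype ι] [DecidableEq ι]

/-- probability of the set `S` -/
noncomputable def pr (p : ι → ℝ) (S : Finset ι) : ℝ := (∏ i ∈ S, p i) * ∏ i ∈ univ \ S, (1 - p i)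

/-- expectation -/
noncomputable def ex (p : ι → ℝ) (g : Finset ι → ℝ) : ℝ := ∑ S, pr p S * g S

theorem sum_pr (p : ι → ℝ) : ∑ S, pr p S = 1 := by
  have h := Finset.prod_add p (fun i => 1 - p i) (univ : Finset ι)
  simp only [add_sub_cancel, prod_const_one, powerset_univ] at h
  exact h.symm

theorem pr_nonneg {p : ι → ℝ} (h0 : ∀ i, 0 ≤ p i) (h1 : ∀ i, p i ≤ 1) (S : Finset ι) : 0 ≤ pr p S :=
  mul_nonneg (prod_nonneg fun i _ => h0 i) (prod_nonneg fun i _ => by linarith [h1 i])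

theorem ex_disj (p : ι → ℝ) (N : Finset ι) :
    ex p (fun S => if Disjoint S N then 1 else 0) = ∏ i ∈ N, (1 - p i) := by
  have h := Finset.prod_add (fun i => if i ∉ N then p i else 0) (fun i => 1 - p i)
    (univ : Finset ι)
  rw [powerset_univ] at h
  have h1 : ∀ S : Finset ι, (∏ i ∈ S, if i ∉ N then p i else 0) =
      (∏ i ∈ S, p i) * (if Disjoint S N then 1 else 0) := by
    intro S
    rw [Finset.prod_ite_zero]
    by_cases hS : Disjoint S N
    · rw [if_pos hS, if_pos (fun i hi => Finset.disjoint_left.1 hS hi), mul_one]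
    · rw [if_neg hS, if_neg (fun h => hS (Finset.disjoint_left.2 fun i hi => h i hi)), mul_zero]
  have h2 : ∏ i, ((if i ∉ N then p i else 0) + (1 - p i)) = ∏ i ∈ N, (1 - p i) := by
    have : ∀ i, ((if i ∉ N then p i else 0) + (1 - p i)) = if i ∈ N then 1 - p i else 1 := by
      intro i
      by_cases hi : i ∈ N
      · simp [hi]
      · simp [hi]
    simp only [this]
    rw [Finset.prod_ite_mem, univ_inter]
  rw [← h2, h]
  unfold ex pr
  refine sum_congr rfl fun S _ => ?_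
  rw [h1]
  ring

theorem ex_add (p : ι → ℝ) (f g : Finset ι → ℝ) : ex p (fun S => f S + g S) = ex p f + ex p g := by
  unfold ex
  rw [← sum_add_distrib]
  exact sum_congr rfl fun S _ => by ring

theorem ex_sub (p : ι → ℝ) (f g : Finset ι → ℝ) : ex p (fun S => f S - g S) = ex p f - ex p g := by
  unfold ex
  rw [← sum_sub_distrib]
  exact sum_congr rfl fun S _ => by ring

theorem ex_mul (p : ι → ℝ) (c : ℝ) (f : Finset ι → ℝ) : ex p (fun S => c * f S) = c * ex p f := by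
  unfold ex
  rw [mul_sum]
  exact sum_congr rfl fun S _ => by ring

theorem ex_const (p : ι → ℝ) (c : ℝ) : ex p (fun _ => c) = c := by
  unfold ex
  rw [← sum_mul, sum_pr, one_mul]

theorem ex_sum {α : Type*} (p : ι → ℝ) (T : Finset α) (f : α → Finset ι → ℝ) :
    ex p (fun S => ∑ t ∈ T, f t S) = ∑ t ∈ T, ex p (f t) := by
  unfold ex
  rw [sum_comm]
  exact sum_congr rfl fun S _ => mul_sum _ _ _

theorem ex_mono {p : ι → ℝ} (h0 : ∀ i, 0 ≤ p i) (h1 : ∀ i, p i ≤ 1) {f g : Finset ι → ℝ}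
    (h : ∀ S, f S ≤ g S) : ex p f ≤ ex p g :=
  sum_le_sum fun S _ => mul_le_mul_of_nonneg_left (h S) (pr_nonneg h0 h1 S)

theorem exists_le {p : ι → ℝ} (h0 : ∀ i, 0 ≤ p i) (h1 : ∀ i, p i ≤ 1) {f : Finset ι → ℝ} {B : ℝ}
    (h : ex p f ≤ B) : ∃ S, f S ≤ B := by
  obtain ⟨S, -, hS⟩ := Finset.exists_min_image (univ : Finset (Finset ι)) f univ_nonempty
  refine ⟨S, le_trans ?_ h⟩
  calc f S = ex p (fun _ => f S) := (ex_const p _).symm
    _ ≤ _ := ex_mono h0 h1 fun S' => hS S' (mem_univ _)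

theorem ex_two (p : ι → ℝ) {i j : ι} (hij : i ≠ j) :
    ex p (fun S => if i ∈ S ∧ j ∈ S then 1 else 0) = p i * p j := by
  have e : (fun S : Finset ι => if i ∈ S ∧ j ∈ S then (1 : ℝ) else 0) = fun S =>
      ((1 - if Disjoint S {i} then (1 : ℝ) else 0) - (if Disjoint S {j} then (1 : ℝ) else 0)) +
        (if Disjoint S {i, j} then (1 : ℝ) else 0) := by
    funext S
    by_cases hi : i ∈ S <;> by_cases hj : j ∈ S <;> simp [hi, hj]
  rw [e, ex_add, ex_sub, ex_sub, ex_const, ex_disj, ex_disj, ex_disj, prod_singleton, prod_singleton,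
    prod_pair hij]
  ring

theorem one_sub_prod_le {p : ι → ℝ} (h0 : ∀ i, 0 ≤ p i) (h1 : ∀ i, p i ≤ 1) (N : Finset ι) :
    1 - ∏ i ∈ N, (1 - p i) ≤ ∑ i ∈ N, p i := by
  induction N using Finset.induction_on with
  | empty => simp
  | insert i N hi ih =>
    rw [prod_insert hi, sum_insert hi]
    have h2 : ∏ i ∈ N, (1 - p i) ≤ 1 := prod_le_one (fun i _ => by linarith [h1 i])
      (fun i _ => by linarith [h0 i])
    have h3 : 0 ≤ ∏ i ∈ N, (1 - p i) := prod_nonneg (fun i _ => by linarith [h1 i])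
    nlinarith [h0 i, h1 i]

theorem prod_le_exp {p : ι → ℝ} (h1 : ∀ i, p i ≤ 1) (N : Finset ι) :
    ∏ i ∈ N, (1 - p i) ≤ Real.exp (-∑ i ∈ N, p i) := by
  rw [← sum_neg_distrib, Real.exp_sum]
  refine prod_le_prod (fun i _ => by linarith [h1 i]) fun i _ => ?_
  have := Real.add_one_le_exp (-p i)
  linarith

theorem exp_le_one_sub {x : ℝ} (h0 : 0 ≤ x) (h1 : x ≤ 1 / 2) : Real.exp (-(x + x ^ 2)) ≤ 1 - x := by
  have h2 : Real.exp (-(x + x ^ 2)) = 1 / Real.exp (x + x ^ 2) := by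
    rw [Real.exp_neg, one_div]
  rw [h2, div_le_iff₀ (Real.exp_pos _)]
  have h3 := Real.quadratic_le_exp_of_nonneg (x := x + x ^ 2) (by positivity)
  have h4 : 1 ≤ (1 - x) * (1 + (x + x ^ 2) + (x + x ^ 2) ^ 2 / 2) := by
    have e : (1 - x) * (1 + (x + x ^ 2) + (x + x ^ 2) ^ 2 / 2) =
        1 + x ^ 2 / 2 * (1 - x - x ^ 2 - x ^ 3) := by ring
    have h5 : x ^ 2 ≤ (1 / 2) ^ 2 := pow_le_pow_left₀ h0 h1 2
    have h6 : x ^ 3 ≤ (1 / 2) ^ 3 := pow_le_pow_left₀ h0 h1 3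
    have h7 : 0 ≤ 1 - x - x ^ 2 - x ^ 3 := by norm_num at h5 h6; linarith
    have h8 : 0 ≤ x ^ 2 / 2 * (1 - x - x ^ 2 - x ^ 3) := mul_nonneg (by positivity) h7
    linarith
  exact h4.trans (mul_le_mul_of_nonneg_left h3 (by linarith))

theorem exp_le_prod {p : ι → ℝ} (h0 : ∀ i, 0 ≤ p i) (h1 : ∀ i, p i ≤ 1 / 2) (N : Finset ι) :
    Real.exp (-∑ i ∈ N, (p i + p i ^ 2)) ≤ ∏ i ∈ N, (1 - p i) := by
  rw [← sum_neg_distrib, Real.exp_sum]
  exact prod_le_prod (fun i _ => (Real.exp_pos _).le) fun i _ => exp_le_one_sub (h0 i) (h1 i)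

end expectation

/-! ### counting -/

section counting

set_option linter.unusedSectionVars false

variable {V ι : Type} [Fintype V] [DecidableEq V] [Fintype ι] [DecidableEq ι]
  {e : ι → Finset V} {w : ι → ℝ}

/-- indicator of `v ∈ e i` -/
noncomputable def ind (e : ι → Finset V) (v : V) (i : ι) : ℝ := if v ∈ e i then 1 else 0

theorem ind_nonneg (v : V) (i : ι) : 0 ≤ ind e v i := by
  unfold ind; split_ifs <;> norm_num

theorem ind_le_one (v : V) (i : ι) : ind e v i ≤ 1 := by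
  unfold ind; split_ifs <;> norm_num

theorem ind_of {v : V} {i : ι} (h : v ∈ e i) : ind e v i = 1 := if_pos h

theorem ind_of_not {v : V} {i : ι} (h : v ∉ e i) : ind e v i = 0 := if_neg h

theorem deg_eq (v : V) : deg e w v = ∑ i, w i * ind e v i := by
  unfold deg ind
  exact sum_congr rfl fun i _ => by split_ifs <;> simp

theorem deg_eq' (v : V) : deg e w v = ∑ i ∈ univ.filter (fun i => v ∈ e i), w i := by
  unfold deg
  rw [sum_filter]

theorem cod_eq (u v : V) : cod e w u v = ∑ i, w i * (ind e u i * ind e v i) := by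
  unfold cod ind
  refine sum_congr rfl fun i _ => ?_
  by_cases h1 : u ∈ e i <;> by_cases h2 : v ∈ e i <;> simp [h1, h2]

theorem cod_comm (u v : V) : cod e w u v = cod e w v u := by
  rw [cod_eq, cod_eq]
  exact sum_congr rfl fun i _ => by ring

theorem cod_nonneg (hw : ∀ i, 0 ≤ w i) (u v : V) : 0 ≤ cod e w u v := by
  rw [cod_eq]
  exact sum_nonneg fun i _ => mul_nonneg (hw i) (mul_nonneg (ind_nonneg _ _) (ind_nonneg _ _))

theorem deg_nonneg (hw : ∀ i, 0 ≤ w i) (v : V) : 0 ≤ deg e w v := by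
  rw [deg_eq]
  exact sum_nonneg fun i _ => mul_nonneg (hw i) (ind_nonneg _ _)

/-- double counting -/
theorem sum_cod (f : V → ℝ) (v : V) :
    ∑ i ∈ univ.filter (fun i => v ∈ e i), w i * ∑ u ∈ (e i).erase v, f u =
      ∑ u ∈ univ.erase v, cod e w u v * f u := by
  have h1 : ∀ i, (∑ u ∈ (e i).erase v, f u) = ∑ u ∈ univ.erase v, ind e u i * f u := by
    intro i
    have : (e i).erase v = (univ.erase v).filter (fun u => u ∈ e i) := by
      ext u; simp
    rw [this, sum_filter]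
    refine sum_congr rfl fun u _ => ?_
    unfold ind
    split_ifs <;> simp
  simp only [h1, cod_eq]
  rw [sum_filter]
  have h2 : ∀ i, (if v ∈ e i then w i * ∑ u ∈ univ.erase v, ind e u i * f u else 0) =
      ∑ u ∈ univ.erase v, w i * (ind e u i * ind e v i) * f u := by
    intro i
    by_cases h : v ∈ e i
    · rw [if_pos h, mul_sum]
      refine sum_congr rfl fun u _ => ?_
      rw [ind_of h]; ring
    · rw [if_neg h]
      symm
      apply sum_eq_zero
      intro u _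
      rw [ind_of_not h]; ring
  simp only [h2]
  rw [sum_comm]
  exact sum_congr rfl fun u _ => (sum_mul _ _ _).symm

/-- weights of edges that meet `A` and `B` in different vertices -/
theorem sum_le_cod (hw : ∀ i, 0 ≤ w i) {δ : ℝ} (hδ : 0 ≤ δ) (hcod : ∀ u v, u ≠ v → cod e w u v ≤ δ)
    (A B : Finset V) (F : Finset ι)
    (hF : ∀ f ∈ F, ∃ u ∈ A, ∃ u' ∈ B, u ≠ u' ∧ u ∈ e f ∧ u' ∈ e f) :
    ∑ f ∈ F, w f ≤ A.card * B.card * δ := by
  have h1 : ∀ f ∈ F, w f ≤ ∑ u ∈ A, ∑ u' ∈ B.filter (fun u' => u ≠ u'),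
      w f * (ind e u f * ind e u' f) := by
    intro f hf
    obtain ⟨u, hu, u', hu', hne, h3, h4⟩ := hF f hf
    have h5 : w f = w f * (ind e u f * ind e u' f) := by
      rw [ind_of h3, ind_of h4]; ring
    have hnn : ∀ u u', 0 ≤ w f * (ind e u f * ind e u' f) := fun u u' =>
      mul_nonneg (hw f) (mul_nonneg (ind_nonneg _ _) (ind_nonneg _ _))
    calc w f = w f * (ind e u f * ind e u' f) := h5
      _ ≤ ∑ u' ∈ B.filter (fun u' => u ≠ u'), w f * (ind e u f * ind e u' f) :=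
          single_le_sum (f := fun u' => w f * (ind e u f * ind e u' f)) (fun u' _ => hnn u u')
            (mem_filter.2 ⟨hu', hne⟩)
      _ ≤ _ := single_le_sum (f := fun u => ∑ u' ∈ B.filter (fun u' => u ≠ u'),
            w f * (ind e u f * ind e u' f)) (fun u _ => sum_nonneg fun u' _ => hnn u u') hu
  calc ∑ f ∈ F, w f ≤ ∑ f ∈ F, ∑ u ∈ A, ∑ u' ∈ B.filter (fun u' => u ≠ u'),
        w f * (ind e u f * ind e u' f) := sum_le_sum h1
    _ ≤ ∑ f, ∑ u ∈ A, ∑ u' ∈ B.filter (fun u' => u ≠ u'), w f * (ind e u f * ind e u' f) :=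
        sum_le_sum_of_subset_of_nonneg (subset_univ _) fun f _ _ => sum_nonneg fun u _ =>
          sum_nonneg fun u' _ => mul_nonneg (hw f) (mul_nonneg (ind_nonneg _ _) (ind_nonneg _ _))
    _ = ∑ u ∈ A, ∑ u' ∈ B.filter (fun u' => u ≠ u'), cod e w u u' := by
        rw [sum_comm]
        refine sum_congr rfl fun u _ => ?_
        rw [sum_comm]
        exact sum_congr rfl fun u' _ => (cod_eq u u').symm
    _ ≤ ∑ u ∈ A, ∑ u' ∈ B.filter (fun u' => u ≠ u'), δ :=
        sum_le_sum fun u _ => sum_le_sum fun u' hu' => hcod u u' (mem_filter.1 hu').2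
    _ ≤ ∑ u ∈ A, (B.card : ℝ) * δ := by
        refine sum_le_sum fun u _ => ?_
        rw [sum_const, nsmul_eq_mul]
        apply mul_le_mul_of_nonneg_right _ hδ
        exact_mod_cast card_filter_le _ _
    _ = _ := by rw [sum_const, nsmul_eq_mul]; ring

/-- edges that meet `e i` but do not contain `v` -/
noncomputable def Nb (e : ι → Finset V) (v : V) (i : ι) : Finset ι :=
  univ.filter fun f => v ∉ e f ∧ ¬ Disjoint (e f) (e i)

theorem mem_Nb {v : V} {i f : ι} : f ∈ Nb e v i ↔ v ∉ e f ∧ ¬ Disjoint (e f) (e i) := by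
  unfold Nb; simp

theorem exists_of_mem_Nb {v : V} {i f : ι} (h : f ∈ Nb e v i) : ∃ u ∈ (e i).erase v, u ∈ e f := by
  obtain ⟨h1, h2⟩ := mem_Nb.1 h
  obtain ⟨u, hu1, hu2⟩ := Finset.not_disjoint_iff.1 h2
  exact ⟨u, mem_erase.2 ⟨fun h => h1 (h ▸ hu1), hu2⟩, hu1⟩

/-- the sum of the degrees over `e i \ v` and the weight of the neighbours -/
theorem sum_deg (hw : ∀ i, 0 ≤ w i) {δ : ℝ} (hδ : 0 ≤ δ) (hcod : ∀ u v, u ≠ v → cod e w u v ≤ δ)
    {r : ℕ} (hr : ∀ i, (e i).card = r) {v : V} {i : ι} (hv : v ∈ e i) :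
    ∑ f ∈ Nb e v i, w f ≤ ∑ u ∈ (e i).erase v, deg e w u ∧
    ∑ u ∈ (e i).erase v, deg e w u ≤ ∑ f ∈ Nb e v i, w f + r * r * δ := by
  have h1 : ∑ u ∈ (e i).erase v, deg e w u = ∑ f, w f * ∑ u ∈ (e i).erase v, ind e u f := by
    simp only [deg_eq]
    rw [sum_comm]
    exact sum_congr rfl fun f _ => (mul_sum _ _ _).symm
  have h2 : ∑ f ∈ Nb e v i, w f = ∑ f, w f * (if f ∈ Nb e v i then 1 else 0) := by
    simp only [mul_ite, mul_one, mul_zero]
    rw [← sum_filter]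
    congr 1
    ext f; simp
  have hnn : ∀ f, 0 ≤ ∑ u ∈ (e i).erase v, ind e u f := fun f =>
    sum_nonneg fun u _ => ind_nonneg _ _
  constructor
  · rw [h1, h2]
    refine sum_le_sum fun f _ => mul_le_mul_of_nonneg_left ?_ (hw f)
    split_ifs with hf
    · obtain ⟨u, hu, huf⟩ := exists_of_mem_Nb hf
      calc (1 : ℝ) = ind e u f := (ind_of huf).symm
        _ ≤ _ := single_le_sum (f := fun u => ind e u f) (fun u _ => ind_nonneg _ _) hu
    · exact hnn f
  · have h3 : ∑ u ∈ e i, ∑ u' ∈ (e i).erase u, cod e w u u' ≤ r * r * δ := by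
      calc _ ≤ ∑ u ∈ e i, ∑ u' ∈ (e i).erase u, δ :=
            sum_le_sum fun u _ => sum_le_sum fun u' hu' => hcod u u' (ne_of_mem_erase hu').symm
        _ ≤ ∑ u ∈ e i, (r : ℝ) * δ := by
            refine sum_le_sum fun u _ => ?_
            rw [sum_const, nsmul_eq_mul]
            apply mul_le_mul_of_nonneg_right _ hδ
            have := card_le_card (erase_subset u (e i))
            rw [hr] at this
            exact_mod_cast this
        _ = _ := by rw [sum_const, nsmul_eq_mul, hr]; ring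
    have h4 : ∑ u ∈ e i, ∑ u' ∈ (e i).erase u, cod e w u u' =
        ∑ f, w f * ∑ u ∈ e i, ∑ u' ∈ (e i).erase u, ind e u f * ind e u' f := by
      simp only [cod_eq, mul_sum]
      symm
      rw [sum_comm]
      refine sum_congr rfl fun u _ => ?_
      exact sum_comm
    rw [h4] at h3
    refine le_trans ?_ (add_le_add le_rfl h3)
    rw [h1, h2, ← sum_add_distrib]
    refine sum_le_sum fun f _ => ?_
    rw [← mul_add]
    refine mul_le_mul_of_nonneg_left ?_ (hw f)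
    have hnn2 : ∀ u, 0 ≤ ∑ u' ∈ (e i).erase u, ind e u f * ind e u' f := fun u =>
      sum_nonneg fun u' _ => mul_nonneg (ind_nonneg _ _) (ind_nonneg _ _)
    have hsing : ∀ u ∈ e i, u ∈ e f → ∑ u' ∈ (e i).erase u, ind e u' f ≤
        ∑ u ∈ e i, ∑ u' ∈ (e i).erase u, ind e u f * ind e u' f := by
      intro u hu huf
      calc _ = ∑ u' ∈ (e i).erase u, ind e u f * ind e u' f := by
            refine sum_congr rfl fun u' _ => ?_
            rw [ind_of huf, one_mul]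
        _ ≤ _ := single_le_sum (f := fun u => ∑ u' ∈ (e i).erase u, ind e u f * ind e u' f)
            (fun u _ => hnn2 u) hu
    by_cases hvf : v ∈ e f
    · -- `v ∈ e f`
      have hf : f ∉ Nb e v i := fun h => (mem_Nb.1 h).1 hvf
      rw [if_neg hf, zero_add]
      exact hsing v hv hvf
    · by_cases hf : f ∈ Nb e v i
      · rw [if_pos hf]
        obtain ⟨u, hu, huf⟩ := exists_of_mem_Nb hf
        have hue : u ∈ e i := mem_of_mem_erase hu
        refine le_trans ?_ (add_le_add le_rfl (hsing u hue huf))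
        have h5 : ∑ u' ∈ (e i).erase v, ind e u' f = ∑ u' ∈ e i, ind e u' f := by
          rw [← add_sum_erase (e i) (fun u' => ind e u' f) hv, ind_of_not hvf, zero_add]
        rw [h5, ← add_sum_erase (e i) (fun u' => ind e u' f) hue, ind_of huf]
      · rw [if_neg hf, zero_add]
        have h5 : ∑ u ∈ (e i).erase v, ind e u f = 0 := by
          apply sum_eq_zero
          intro u hu
          apply ind_of_not
          intro huf
          apply hf
          rw [mem_Nb]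
          exact ⟨hvf, Finset.not_disjoint_iff.2 ⟨u, huf, mem_of_mem_erase hu⟩⟩
        rw [h5]
        exact sum_nonneg fun u _ => hnn2 u

end counting

/-! ### the three estimates -/

section estimates

set_option linter.unusedSectionVars false

variable {V ι : Type} [Fintype V] [DecidableEq V] [Fintype ι] [DecidableEq ι]
  {e : ι → Finset V} {w : ι → ℝ} {r : ℕ} {ε D δ : ℝ}

/-- the edges at `v` -/
noncomputable def Tv (e : ι → Finset V) (v : V) : Finset ι := univ.filter fun i => v ∈ e i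

theorem mem_Tv {v : V} {i : ι} : i ∈ Tv e v ↔ v ∈ e i := by unfold Tv; simp

theorem w_le (hw : ∀ i, 0 ≤ w i) (hr : ∀ i, (e i).card = r) (h2 : 2 ≤ r)
    (hcod : ∀ u v, u ≠ v → cod e w u v ≤ δ) (i : ι) : w i ≤ δ := by
  have h : 1 < (e i).card := by rw [hr]; omega
  obtain ⟨u, hu, v, hv, hne⟩ := Finset.one_lt_card.1 h
  refine le_trans ?_ (hcod u v hne)
  rw [cod_eq]
  calc w i = w i * (ind e u i * ind e v i) := by rw [ind_of hu, ind_of hv]; ring
    _ ≤ _ := single_le_sum (f := fun i => w i * (ind e u i * ind e v i))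
      (fun i _ => mul_nonneg (hw i) (mul_nonneg (ind_nonneg _ _) (ind_nonneg _ _))) (mem_univ i)

theorem ex_waste (hw : ∀ i, 0 ≤ w i) (hr : ∀ i, (e i).card = r) (hε : 0 ≤ ε)
    (hp : ∀ i, ε * w i ≤ 1) :
    ex (fun i => ε * w i) (fun S => ((waste e S).card : ℝ)) ≤
      2 * r * ε ^ 2 * (Fintype.card V + dev e w) := by
  have hp0 : ∀ i, 0 ≤ ε * w i := fun i => mul_nonneg hε (hw i)
  have h1 : ∀ S : Finset ι, ((waste e S).card : ℝ) ≤
      ∑ i, ∑ j ∈ univ.filter (fun j => j ≠ i ∧ ¬ Disjoint (e i) (e j)),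
        (r : ℝ) * (if i ∈ S ∧ j ∈ S then 1 else 0) := by
    intro S
    have h2 : waste e S ⊆
        (S.filter (fun i => ∃ j ∈ S, j ≠ i ∧ ¬ Disjoint (e i) (e j))).biUnion e := by
      intro v hv
      obtain ⟨⟨i, hi, hvi⟩, h4⟩ := (mem_filter.1 hv).2
      rw [mem_biUnion]
      refine ⟨i, mem_filter.2 ⟨hi, ?_⟩, hvi⟩
      by_contra hcon
      push Not at hcon
      exact h4 i (mem_filter.2 ⟨hi, fun j hj hji => hcon j hj hji⟩) hvi
    have h3 : ((waste e S).card : ℝ) ≤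
        ∑ i ∈ S.filter (fun i => ∃ j ∈ S, j ≠ i ∧ ¬ Disjoint (e i) (e j)), (r : ℝ) := by
      have h4 := (card_le_card h2).trans card_biUnion_le
      have h5 : ∑ i ∈ S.filter (fun i => ∃ j ∈ S, j ≠ i ∧ ¬ Disjoint (e i) (e j)), (e i).card =
          ∑ i ∈ S.filter (fun i => ∃ j ∈ S, j ≠ i ∧ ¬ Disjoint (e i) (e j)), r :=
        sum_congr rfl fun i _ => hr i
      rw [h5] at h4
      exact_mod_cast h4
    refine h3.trans ?_
    have hnn : ∀ i j, 0 ≤ (r : ℝ) * (if i ∈ S ∧ j ∈ S then 1 else 0) := fun i j => by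
      split_ifs <;> positivity
    calc _ ≤ ∑ i ∈ S.filter (fun i => ∃ j ∈ S, j ≠ i ∧ ¬ Disjoint (e i) (e j)),
          ∑ j ∈ univ.filter (fun j => j ≠ i ∧ ¬ Disjoint (e i) (e j)),
            (r : ℝ) * (if i ∈ S ∧ j ∈ S then 1 else 0) := by
          refine sum_le_sum fun i hi => ?_
          obtain ⟨hiS, j, hj, hji, hd⟩ := mem_filter.1 hi
          calc (r : ℝ) = (r : ℝ) * (if i ∈ S ∧ j ∈ S then 1 else 0) := by
                rw [if_pos ⟨hiS, hj⟩, mul_one]
            _ ≤ _ := single_le_sum (f := fun j => (r : ℝ) * (if i ∈ S ∧ j ∈ S then 1 else 0))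
                (fun j _ => hnn i j) (mem_filter.2 ⟨mem_univ _, hji, hd⟩)
      _ ≤ _ := sum_le_sum_of_subset_of_nonneg (subset_univ _) fun i _ _ =>
          sum_nonneg fun j _ => hnn i j
  refine (ex_mono hp0 hp h1).trans ?_
  rw [ex_sum]
  have h2 : ∀ i, ex (fun i => ε * w i) (fun S =>
      ∑ j ∈ univ.filter (fun j => j ≠ i ∧ ¬ Disjoint (e i) (e j)),
        (r : ℝ) * (if i ∈ S ∧ j ∈ S then 1 else 0)) ≤
      ∑ j, (r : ℝ) * ∑ v, (ε * w i * ind e v i) * (ε * w j * ind e v j) := by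
    intro i
    rw [ex_sum]
    have hnn : ∀ i j v, 0 ≤ (ε * w i * ind e v i) * (ε * w j * ind e v j) := fun i j v =>
      mul_nonneg (mul_nonneg (hp0 i) (ind_nonneg _ _)) (mul_nonneg (hp0 j) (ind_nonneg _ _))
    calc _ ≤ ∑ j ∈ univ.filter (fun j => j ≠ i ∧ ¬ Disjoint (e i) (e j)),
          (r : ℝ) * ∑ v, (ε * w i * ind e v i) * (ε * w j * ind e v j) := by
          refine sum_le_sum fun j hj => ?_
          obtain ⟨-, hji, hd⟩ := mem_filter.1 hj
          rw [ex_mul, ex_two _ hji.symm]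
          refine mul_le_mul_of_nonneg_left ?_ (by positivity)
          obtain ⟨v, hv1, hv2⟩ := Finset.not_disjoint_iff.1 hd
          calc ε * w i * (ε * w j) = (ε * w i * ind e v i) * (ε * w j * ind e v j) := by
                rw [ind_of hv1, ind_of hv2]; ring
            _ ≤ _ := single_le_sum (f := fun v => (ε * w i * ind e v i) * (ε * w j * ind e v j))
                (fun v _ => hnn i j v) (mem_univ v)
      _ ≤ _ := sum_le_sum_of_subset_of_nonneg (subset_univ _) fun j _ _ =>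
          mul_nonneg (by positivity) (sum_nonneg fun v _ => hnn i j v)
  refine (sum_le_sum fun i _ => h2 i).trans ?_
  have h3 : ∑ i, ∑ j, (r : ℝ) * ∑ v, (ε * w i * ind e v i) * (ε * w j * ind e v j) =
      r * ∑ v, (ε * deg e w v) ^ 2 := by
    have h4 : ∀ v, (ε * deg e w v) ^ 2 =
        ∑ i, ∑ j, (ε * w i * ind e v i) * (ε * w j * ind e v j) := by
      intro v
      rw [deg_eq, mul_sum, sq, sum_mul_sum]
      exact sum_congr rfl fun i _ => sum_congr rfl fun j _ => by ring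
    have h5 : ∑ i, ∑ j, ∑ v, (ε * w i * ind e v i) * (ε * w j * ind e v j) =
        ∑ v, (ε * deg e w v) ^ 2 := by
      simp only [h4]
      calc ∑ i, ∑ j, ∑ v, (ε * w i * ind e v i) * (ε * w j * ind e v j)
          = ∑ i, ∑ v, ∑ j, (ε * w i * ind e v i) * (ε * w j * ind e v j) :=
            sum_congr rfl fun i _ => sum_comm
        _ = _ := sum_comm
    rw [← h5, mul_sum]
    exact sum_congr rfl fun i _ => (mul_sum _ _ _).symm
  rw [h3]
  have h5 : ∑ v, (ε * deg e w v) ^ 2 ≤ 2 * ε ^ 2 * (Fintype.card V + dev e w) := by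
    have h6 : (Fintype.card V : ℝ) = ∑ _v : V, (1 : ℝ) := by simp
    unfold dev
    rw [h6, ← sum_add_distrib, mul_sum]
    refine sum_le_sum fun v _ => ?_
    have h7 : deg e w v ^ 2 ≤ 2 * (1 + (deg e w v - 1) ^ 2) := by
      nlinarith [sq_nonneg (deg e w v - 2)]
    calc (ε * deg e w v) ^ 2 = ε ^ 2 * deg e w v ^ 2 := by ring
      _ ≤ ε ^ 2 * (2 * (1 + (deg e w v - 1) ^ 2)) := mul_le_mul_of_nonneg_left h7 (sq_nonneg ε)
      _ = _ := by ring
  calc (r : ℝ) * ∑ v, (ε * deg e w v) ^ 2 ≤ r * (2 * ε ^ 2 * (Fintype.card V + dev e w)) :=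
        mul_le_mul_of_nonneg_left h5 (by positivity)
    _ = _ := by ring

theorem exp_neg_le {x : ℝ} (hx : 0 ≤ x) : Real.exp (-x) ≤ 1 - x + x ^ 2 / 2 := by
  have h := Real.quadratic_le_exp_of_nonneg hx
  rw [Real.exp_neg, ← one_div, div_le_iff₀ (Real.exp_pos _)]
  have h1 : 1 ≤ (1 - x + x ^ 2 / 2) * (1 + x + x ^ 2 / 2) := by
    have : (1 - x + x ^ 2 / 2) * (1 + x + x ^ 2 / 2) = 1 + (x ^ 2) ^ 2 / 4 := by ring
    rw [this]
    have : 0 ≤ (x ^ 2) ^ 2 := by positivity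
    linarith
  refine h1.trans (mul_le_mul_of_nonneg_left h ?_)
  nlinarith [sq_nonneg (x - 1)]

theorem ex_surv (hw : ∀ i, 0 ≤ w i) (hε : 0 < ε) (hε1 : ε ≤ 1 / 8) (hp : ∀ i, ε * w i ≤ 1) :
    ex (fun i => ε * w i) (fun S => ((surv e S).card : ℝ)) ≤
      (1 - 3 * ε / 4) * Fintype.card V + 3 * ε * dev e w := by
  have h1 : ∀ S : Finset ι, ((surv e S).card : ℝ) = ∑ v, if Disjoint S (Tv e v) then 1 else 0 := by
    intro S
    have : surv e S = univ.filter (fun v => Disjoint S (Tv e v)) := by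
      unfold surv
      apply filter_congr
      intro v _
      rw [Finset.disjoint_left]
      simp only [mem_Tv]
    rw [this, card_filter]
    push_cast
    rfl
  simp only [h1]
  rw [ex_sum]
  have h2 : ((Fintype.card V : ℕ) : ℝ) = ∑ _v : V, (1 : ℝ) := by simp
  unfold dev
  rw [h2, mul_sum, mul_sum, ← sum_add_distrib]
  refine sum_le_sum fun v _ => ?_
  rw [ex_disj]
  refine (prod_le_exp hp _).trans ?_
  have h3 : ∑ i ∈ Tv e v, ε * w i = ε * deg e w v := by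
    rw [deg_eq', mul_sum]; rfl
  rw [h3]
  have hd := deg_nonneg (e := e) hw v
  refine (exp_neg_le (mul_nonneg hε.le hd)).trans ?_
  obtain ⟨a, ha⟩ : ∃ a, a = deg e w v - 1 := ⟨_, rfl⟩
  have hd' : deg e w v = 1 + a := by linarith
  rw [hd']
  have h5 : ε ^ 2 * (1 + a) ^ 2 / 2 ≤ ε * ((1 + a) ^ 2 / 16) := by
    have h6 : 0 ≤ (1 + a) ^ 2 := sq_nonneg _
    have h7 : ε * ((1 + a) ^ 2 / 2) ≤ (1 + a) ^ 2 / 16 := by nlinarith
    calc ε ^ 2 * (1 + a) ^ 2 / 2 = ε * (ε * ((1 + a) ^ 2 / 2)) := by ring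
      _ ≤ _ := mul_le_mul_of_nonneg_left h7 hε.le
  have h6 : ε * ((1 + a) ^ 2 / 16 - 1 / 4 - a - 3 * a ^ 2) ≤ 0 := by
    apply mul_nonpos_of_nonneg_of_nonpos hε.le
    nlinarith [sq_nonneg (a + 7 / 47)]
  have h7 : (ε * (1 + a)) ^ 2 / 2 = ε ^ 2 * (1 + a) ^ 2 / 2 := by ring
  rw [h7]
  have h8 : (1 + a - 1) ^ 2 = a ^ 2 := by ring
  rw [h8]
  linarith

/-- second moment of a linear combination of indicators -/
theorem ex_sq {p : ι → ℝ} (h0 : ∀ i, 0 ≤ p i) (h1 : ∀ i, p i ≤ 1) (T : Finset ι) {c : ι → ℝ}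
    (hc : ∀ i, 0 ≤ c i) (N : ι → Finset ι) :
    ex p (fun S => ((∑ i ∈ T, c i * (if Disjoint S (N i) then 1 else 0)) - 1) ^ 2) ≤
      ((∑ i ∈ T, c i * ∏ f ∈ N i, (1 - p f)) - 1) ^ 2 +
        ∑ i ∈ T, ∑ j ∈ T, c i * c j * (1 - ∏ f ∈ N i ∩ N j, (1 - p f)) := by
  have e1 : (fun S : Finset ι => ((∑ i ∈ T, c i * (if Disjoint S (N i) then (1 : ℝ) else 0)) - 1) ^ 2) =
      fun S => ((∑ i ∈ T, ∑ j ∈ T, c i * c j * (if Disjoint S (N i ∪ N j) then (1 : ℝ) else 0)) -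
        (∑ i ∈ T, 2 * c i * (if Disjoint S (N i) then (1 : ℝ) else 0))) + 1 := by
    funext S
    have h2 : ∀ i j, (if Disjoint S (N i ∪ N j) then (1 : ℝ) else 0) =
        (if Disjoint S (N i) then (1 : ℝ) else 0) * (if Disjoint S (N j) then (1 : ℝ) else 0) := by
      intro i j
      by_cases ha : Disjoint S (N i) <;> by_cases hb : Disjoint S (N j) <;>
        simp [Finset.disjoint_union_right, ha, hb]
    have h3 : (∑ i ∈ T, ∑ j ∈ T, c i * c j * (if Disjoint S (N i ∪ N j) then (1 : ℝ) else 0)) =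
        (∑ i ∈ T, c i * (if Disjoint S (N i) then (1 : ℝ) else 0)) ^ 2 := by
      rw [sq, sum_mul_sum]
      refine sum_congr rfl fun i _ => sum_congr rfl fun j _ => ?_
      rw [h2]; ring
    have h4 : (∑ i ∈ T, 2 * c i * (if Disjoint S (N i) then (1 : ℝ) else 0)) =
        2 * (∑ i ∈ T, c i * (if Disjoint S (N i) then (1 : ℝ) else 0)) := by
      rw [mul_sum]
      exact sum_congr rfl fun i _ => by ring
    rw [h3, h4]; ring
  rw [e1, ex_add, ex_sub, ex_const, ex_sum]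
  have e2 : ∀ i, ex p (fun S => ∑ j ∈ T, c i * c j * (if Disjoint S (N i ∪ N j) then (1 : ℝ) else 0)) =
      ∑ j ∈ T, c i * c j * ∏ f ∈ N i ∪ N j, (1 - p f) := by
    intro i
    rw [ex_sum]
    refine sum_congr rfl fun j _ => ?_
    rw [ex_mul, ex_disj]
  have e3 : ex p (fun S => ∑ i ∈ T, 2 * c i * (if Disjoint S (N i) then (1 : ℝ) else 0)) =
      2 * ∑ i ∈ T, c i * ∏ f ∈ N i, (1 - p f) := by
    rw [ex_sum, mul_sum]
    refine sum_congr rfl fun i _ => ?_
    rw [ex_mul, ex_disj]; ring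
  simp only [e2]
  rw [e3]
  have e4 : (∑ i ∈ T, ∑ j ∈ T, c i * c j * ∏ f ∈ N i ∪ N j, (1 - p f)) ≤
      (∑ i ∈ T, c i * ∏ f ∈ N i, (1 - p f)) ^ 2 +
        ∑ i ∈ T, ∑ j ∈ T, c i * c j * (1 - ∏ f ∈ N i ∩ N j, (1 - p f)) := by
    rw [sq, sum_mul_sum, ← sum_add_distrib]
    refine sum_le_sum fun i _ => ?_
    rw [← sum_add_distrib]
    refine sum_le_sum fun j _ => ?_
    have h2 := Finset.prod_union_inter (s₁ := N i) (s₂ := N j) (f := fun f => 1 - p f)
    have h3 : ∏ f ∈ N i ∪ N j, (1 - p f) ≤ 1 :=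
      prod_le_one (fun i _ => by linarith [h1 i]) (fun i _ => by linarith [h0 i])
    have h4 : ∏ f ∈ N i ∩ N j, (1 - p f) ≤ 1 :=
      prod_le_one (fun i _ => by linarith [h1 i]) (fun i _ => by linarith [h0 i])
    have h5 : ∏ f ∈ N i ∪ N j, (1 - p f) ≤ (∏ f ∈ N i, (1 - p f)) * (∏ f ∈ N j, (1 - p f)) +
        (1 - ∏ f ∈ N i ∩ N j, (1 - p f)) := by
      rw [← h2]
      nlinarith
    calc c i * c j * ∏ f ∈ N i ∪ N j, (1 - p f)
        ≤ c i * c j * ((∏ f ∈ N i, (1 - p f)) * (∏ f ∈ N j, (1 - p f)) +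
          (1 - ∏ f ∈ N i ∩ N j, (1 - p f))) :=
          mul_le_mul_of_nonneg_left h5 (mul_nonneg (hc i) (hc j))
      _ = _ := by ring
  nlinarith

/-- the covariances -/
theorem cov_le (hw : ∀ i, 0 ≤ w i) (hr : ∀ i, (e i).card = r) (hε : 0 ≤ ε) (hε1 : ε ≤ 1)
    (hδ : 0 ≤ δ) (hp : ∀ i, ε * w i ≤ 1) (hdeg : ∀ v, deg e w v ≤ D)
    (hcod : ∀ u v, u ≠ v → cod e w u v ≤ δ) {κ : ℝ} (v : V) :
    ∑ i ∈ Tv e v, ∑ j ∈ Tv e v, κ * w i * (κ * w j) *
        (1 - ∏ f ∈ Nb e v i ∩ Nb e v j, (1 - ε * w f)) ≤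
      κ ^ 2 * (r * r * δ * D ^ 2 + D * (r * δ)) := by
  have hp0 : ∀ i, 0 ≤ ε * w i := fun i => mul_nonneg hε (hw i)
  have h1 : ∀ i ∈ Tv e v, ∀ j ∈ Tv e v, 1 - ∏ f ∈ Nb e v i ∩ Nb e v j, (1 - ε * w f) ≤
      r * r * δ + (if e i ∩ e j = {v} then 0 else 1) := by
    intro i hi j hj
    have hA : ∀ i : ι, (((e i).erase v).card : ℝ) ≤ r := fun i => by
      have := card_le_card (erase_subset v (e i))
      rw [hr] at this
      exact_mod_cast this
    split_ifs with h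
    · rw [add_zero]
      refine (one_sub_prod_le hp0 hp _).trans ?_
      rw [← mul_sum]
      have h2 := sum_le_cod hw hδ hcod ((e i).erase v) ((e j).erase v) (Nb e v i ∩ Nb e v j) (by
        intro f hf
        obtain ⟨u, hu, hu2⟩ := exists_of_mem_Nb (mem_inter.1 hf).1
        obtain ⟨u', hu', hu2'⟩ := exists_of_mem_Nb (mem_inter.1 hf).2
        refine ⟨u, hu, u', hu', ?_, hu2, hu2'⟩
        intro heq
        subst heq
        have h3 : u ∈ e i ∩ e j := mem_inter.2 ⟨mem_of_mem_erase hu, mem_of_mem_erase hu'⟩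
        rw [h, mem_singleton] at h3
        exact (mem_erase.1 hu).1 h3)
      have h3 : 0 ≤ ∑ f ∈ Nb e v i ∩ Nb e v j, w f := sum_nonneg fun f _ => hw f
      have h4 : (((e i).erase v).card : ℝ) * (((e j).erase v).card : ℝ) ≤ r * r :=
        mul_le_mul (hA i) (hA j) (by positivity) (by positivity)
      calc ε * ∑ f ∈ Nb e v i ∩ Nb e v j, w f ≤ 1 * ∑ f ∈ Nb e v i ∩ Nb e v j, w f :=
            mul_le_mul_of_nonneg_right hε1 h3
        _ ≤ _ := by
            rw [one_mul]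
            exact h2.trans (mul_le_mul_of_nonneg_right h4 hδ)
    · have h2 : 0 ≤ ∏ f ∈ Nb e v i ∩ Nb e v j, (1 - ε * w f) :=
        prod_nonneg fun f _ => by linarith [hp f]
      have h3 : 0 ≤ (r : ℝ) * r * δ := by positivity
      linarith
  have h2 : ∀ i ∈ Tv e v, ∑ j ∈ Tv e v, w j * (if e i ∩ e j = {v} then (0 : ℝ) else 1) ≤ r * δ := by
    intro i hi
    have hvi := mem_Tv.1 hi
    have e1 : ∑ j ∈ Tv e v, w j * (if e i ∩ e j = {v} then (0 : ℝ) else 1) =
        ∑ j ∈ (Tv e v).filter (fun j => e i ∩ e j ≠ {v}), w j := by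
      rw [sum_filter]
      refine sum_congr rfl fun j _ => ?_
      by_cases h : e i ∩ e j = {v} <;> simp [h]
    rw [e1]
    have h3 := sum_le_cod hw hδ hcod {v} (e i) ((Tv e v).filter (fun j => e i ∩ e j ≠ {v})) (by
      intro f hf
      obtain ⟨hf1, hf2⟩ := mem_filter.1 hf
      have hvf := mem_Tv.1 hf1
      by_contra hcon
      push Not at hcon
      apply hf2
      ext u
      rw [mem_inter, mem_singleton]
      constructor
      · rintro ⟨hu1, hu2⟩
        by_contra hne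
        exact hcon v (mem_singleton_self v) u hu1 (fun h => hne h.symm) hvf hu2
      · rintro rfl
        exact ⟨hvi, hvf⟩)
    rw [card_singleton, hr] at h3
    simpa using h3
  have hdv : ∑ i ∈ Tv e v, w i = deg e w v := by rw [deg_eq']; rfl
  have hd0 := deg_nonneg (e := e) hw v
  calc _ ≤ ∑ i ∈ Tv e v, ∑ j ∈ Tv e v, κ * w i * (κ * w j) *
        (r * r * δ + (if e i ∩ e j = {v} then 0 else 1)) := by
        refine sum_le_sum fun i hi => sum_le_sum fun j hj => ?_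
        refine mul_le_mul_of_nonneg_left (h1 i hi j hj) ?_
        have : κ * w i * (κ * w j) = κ ^ 2 * (w i * w j) := by ring
        rw [this]
        exact mul_nonneg (sq_nonneg _) (mul_nonneg (hw i) (hw j))
    _ = κ ^ 2 * (r * r * δ * (deg e w v) ^ 2 + ∑ i ∈ Tv e v, w i *
          ∑ j ∈ Tv e v, w j * (if e i ∩ e j = {v} then (0 : ℝ) else 1)) := by
        rw [← hdv, sq (∑ i ∈ Tv e v, w i), sum_mul_sum, mul_sum, ← sum_add_distrib, mul_sum]
        refine sum_congr rfl fun i _ => ?_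
        rw [mul_sum, mul_sum, ← sum_add_distrib, mul_sum]
        refine sum_congr rfl fun j _ => ?_
        ring
    _ ≤ _ := by
        refine mul_le_mul_of_nonneg_left ?_ (sq_nonneg κ)
        refine add_le_add ?_ ?_
        · exact mul_le_mul_of_nonneg_left (pow_le_pow_left₀ hd0 (hdeg v) 2) (by positivity)
        · calc _ ≤ ∑ i ∈ Tv e v, w i * (r * δ) :=
                sum_le_sum fun i hi => mul_le_mul_of_nonneg_left (h2 i hi) (hw i)
            _ = deg e w v * (r * δ) := by rw [← sum_mul, hdv]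
            _ ≤ _ := mul_le_mul_of_nonneg_right (hdeg v) (by positivity)

theorem exp_sub_one_le {Z : ℝ} : Real.exp Z - 1 ≤ Z * Real.exp Z := by
  have h := Real.add_one_le_exp (-Z)
  have h2 : Real.exp (-Z) * Real.exp Z = 1 := by rw [← Real.exp_add]; simp
  have h3 := mul_le_mul_of_nonneg_right h (Real.exp_pos Z).le
  rw [h2] at h3
  linarith

/-- the mean of one indicator -/
theorem mean_le (hw : ∀ i, 0 ≤ w i) (hr : ∀ i, (e i).card = r) (h2 : 2 ≤ r) (hε : 0 ≤ ε)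
    (hε1 : ε ≤ 1 / 8) (hδ : 0 ≤ δ) (hδ1 : δ ≤ 1) (hD : 1 ≤ D) (hdeg : ∀ v, deg e w v ≤ D)
    (hcod : ∀ u v, u ≠ v → cod e w u v ≤ δ) {v : V} {i : ι} (hv : v ∈ e i)
    (hd1 : ((r : ℝ) * r + r * D) * δ ≤ 1) :
    |Real.exp (ε * (r - 1)) * ∏ f ∈ Nb e v i, (1 - ε * w f) - 1| ≤
      Real.exp (r * D + 1) * (∑ u ∈ (e i).erase v, |deg e w u - 1| + (r * r + r * D) * δ) := by
  have hwδ : ∀ f, w f ≤ δ := w_le hw hr h2 hcod
  have hp0 : ∀ i, 0 ≤ ε * w i := fun i => mul_nonneg hε (hw i)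
  have hp : ∀ i, ε * w i ≤ 1 / 2 := fun i => by
    have h3 := hwδ i
    have h4 := hw i
    nlinarith
  have hp1 : ∀ i, ε * w i ≤ 1 := fun i => by linarith [hp i]
  obtain ⟨W, hW⟩ : ∃ W, W = ∑ f ∈ Nb e v i, w f := ⟨_, rfl⟩
  obtain ⟨hs1, hs2⟩ := sum_deg hw hδ hcod hr hv
  rw [← hW] at hs1 hs2
  have hcard : (((e i).erase v).card : ℝ) = r - 1 := by
    rw [card_erase_of_mem hv, hr, Nat.cast_sub (by omega)]; simp
  have hcard' : (((e i).erase v).card : ℝ) ≤ r := by rw [hcard]; linarith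
  obtain ⟨A, hA⟩ : ∃ A, A = ∑ u ∈ (e i).erase v, (deg e w u - 1) := ⟨_, rfl⟩
  have hA2 : ∑ u ∈ (e i).erase v, deg e w u = (r - 1) + A := by
    rw [hA, sum_sub_distrib, sum_const, nsmul_eq_mul, hcard]; ring
  obtain ⟨B, hB⟩ : ∃ B, B = ∑ u ∈ (e i).erase v, |deg e w u - 1| := ⟨_, rfl⟩
  have hAB : |A| ≤ B := by rw [hA, hB]; exact abs_sum_le_sum_abs _ _
  have hB0 : 0 ≤ B := (abs_nonneg A).trans hAB
  have hWD : W ≤ r * D := by
    refine hs1.trans ?_
    calc ∑ u ∈ (e i).erase v, deg e w u ≤ ∑ u ∈ (e i).erase v, D := sum_le_sum fun u _ => hdeg u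
      _ = ((e i).erase v).card * D := by rw [sum_const, nsmul_eq_mul]
      _ ≤ _ := mul_le_mul_of_nonneg_right hcard' (by linarith)
  have hBD : B ≤ r * D := by
    rw [hB]
    calc ∑ u ∈ (e i).erase v, |deg e w u - 1| ≤ ∑ u ∈ (e i).erase v, D := by
          refine sum_le_sum fun u _ => ?_
          rw [abs_le]
          have := deg_nonneg (e := e) hw u
          have := hdeg u
          constructor <;> linarith
      _ = ((e i).erase v).card * D := by rw [sum_const, nsmul_eq_mul]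
      _ ≤ _ := mul_le_mul_of_nonneg_right hcard' (by linarith)
  have hW0 : 0 ≤ W := by rw [hW]; exact sum_nonneg fun f _ => hw f
  -- sum of squares
  obtain ⟨s, hs⟩ : ∃ s, s = ∑ f ∈ Nb e v i, (ε * w f) ^ 2 := ⟨_, rfl⟩
  have hs0 : 0 ≤ s := by rw [hs]; exact sum_nonneg fun f _ => sq_nonneg _
  have hs3 : s ≤ r * D * δ := by
    have h3 : s ≤ ∑ f ∈ Nb e v i, δ * w f := by
      rw [hs]
      refine sum_le_sum fun f _ => ?_
      have h4 := hwδ f
      have h5 := hw f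
      have h6 : ε ^ 2 ≤ 1 := by nlinarith
      calc (ε * w f) ^ 2 = ε ^ 2 * (w f * w f) := by ring
        _ ≤ 1 * (w f * w f) := mul_le_mul_of_nonneg_right h6 (mul_nonneg h5 h5)
        _ ≤ δ * w f := by rw [one_mul]; exact mul_le_mul_of_nonneg_right h4 h5
    rw [← mul_sum, ← hW] at h3
    calc s ≤ δ * W := h3
      _ ≤ δ * (r * D) := mul_le_mul_of_nonneg_left hWD hδ
      _ = _ := by ring
  have hr0 : (0 : ℝ) ≤ r := by positivity
  obtain ⟨ρ, hρ⟩ : ∃ ρ, ρ = (∑ u ∈ (e i).erase v, deg e w u) - W := ⟨_, rfl⟩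
  have hρ0 : 0 ≤ ρ := by linarith
  have hρ1 : ρ ≤ r * r * δ := by linarith
  have hsum : ∑ f ∈ Nb e v i, ε * w f = ε * W := by rw [hW, mul_sum]
  have hup : Real.exp (ε * (r - 1)) * ∏ f ∈ Nb e v i, (1 - ε * w f) ≤ Real.exp (ε * (-A + ρ)) := by
    have h3 := prod_le_exp hp1 (Nb e v i)
    rw [hsum] at h3
    calc _ ≤ Real.exp (ε * (r - 1)) * Real.exp (-(ε * W)) :=
          mul_le_mul_of_nonneg_left h3 (Real.exp_pos _).le
      _ = Real.exp (ε * (-A + ρ)) := by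
          rw [← Real.exp_add]
          congr 1
          rw [hρ, hA2]; ring
  have hlo : Real.exp (ε * (-A + ρ) - s) ≤
      Real.exp (ε * (r - 1)) * ∏ f ∈ Nb e v i, (1 - ε * w f) := by
    have h3 := exp_le_prod hp0 hp (Nb e v i)
    rw [sum_add_distrib, hsum, ← hs] at h3
    calc Real.exp (ε * (-A + ρ) - s) = Real.exp (ε * (r - 1)) * Real.exp (-(ε * W + s)) := by
          rw [← Real.exp_add]
          congr 1
          rw [hρ, hA2]; ring
      _ ≤ _ := mul_le_mul_of_nonneg_left h3 (Real.exp_pos _).le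
  obtain ⟨Z, hZ⟩ : ∃ Z, Z = B + (r * r + r * D) * δ := ⟨_, rfl⟩
  have hε1' : ε ≤ 1 := by linarith
  have hZ0 : 0 ≤ Z := by rw [hZ]; positivity
  have hεA : |ε * (-A + ρ)| ≤ B + r * r * δ := by
    rw [abs_mul, abs_of_nonneg hε]
    have h3 : |-A + ρ| ≤ B + r * r * δ := by
      refine (abs_add_le _ _).trans ?_
      rw [abs_neg, abs_of_nonneg hρ0]
      linarith
    calc ε * |-A + ρ| ≤ 1 * |-A + ρ| := mul_le_mul_of_nonneg_right hε1' (abs_nonneg _)
      _ ≤ _ := by rw [one_mul]; exact h3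
  have h3 := abs_le.1 hεA
  have hZ1 : ε * (-A + ρ) ≤ Z := by
    rw [hZ]
    have : 0 ≤ (r : ℝ) * D * δ := by positivity
    linarith
  have hZ2 : -Z ≤ ε * (-A + ρ) - s := by
    rw [hZ]
    linarith
  have hZY : Z ≤ r * D + 1 := by rw [hZ]; linarith
  rw [← hB, ← hZ]
  have hexp : Real.exp Z ≤ Real.exp (r * D + 1) := Real.exp_le_exp.2 hZY
  rw [abs_le]
  constructor
  · have h4 : Real.exp (-Z) ≤ Real.exp (ε * (r - 1)) * ∏ f ∈ Nb e v i, (1 - ε * w f) :=
      (Real.exp_le_exp.2 hZ2).trans hlo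
    have h5 := Real.add_one_le_exp (-Z)
    have h6 : 1 ≤ Real.exp (r * D + 1) := Real.one_le_exp (by positivity)
    have h7 : Z ≤ Real.exp (r * D + 1) * Z := by nlinarith
    linarith
  · have h4 : Real.exp (ε * (r - 1)) * ∏ f ∈ Nb e v i, (1 - ε * w f) ≤ Real.exp Z :=
      hup.trans (Real.exp_le_exp.2 hZ1)
    have h5 := exp_sub_one_le (Z := Z)
    have h6 : Z * Real.exp Z ≤ Real.exp (r * D + 1) * Z := by
      rw [mul_comm]
      exact mul_le_mul_of_nonneg_right hexp hZ0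
    linarith

theorem dev'_le (κ : ℝ) (S : Finset ι) : dev' e w κ S ≤
    ∑ v, ((∑ i ∈ Tv e v, κ * w i * (if Disjoint S (Nb e v i) then 1 else 0)) - 1) ^ 2 := by
  unfold dev'
  have h1 : ∀ v ∈ surv e S, κ * (∑ i, if v ∈ e i ∧ e i ⊆ surv e S then w i else 0) =
      ∑ i ∈ Tv e v, κ * w i * (if Disjoint S (Nb e v i) then 1 else 0) := by
    intro v hv
    have hv' : ∀ i ∈ S, v ∉ e i := (mem_filter.1 hv).2
    unfold Tv
    rw [sum_filter, mul_sum]
    refine sum_congr rfl fun i _ => ?_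
    by_cases hi : v ∈ e i
    · rw [if_pos hi]
      have h2 : (e i ⊆ surv e S) ↔ Disjoint S (Nb e v i) := by
        rw [Finset.disjoint_left]
        constructor
        · intro h f hf hN
          obtain ⟨u, hu, huf⟩ := exists_of_mem_Nb hN
          exact (mem_filter.1 (h (mem_of_mem_erase hu))).2 f hf huf
        · intro h u hu
          refine mem_filter.2 ⟨mem_univ _, fun f hf huf => ?_⟩
          apply h hf
          rw [mem_Nb]
          exact ⟨hv' f hf, Finset.not_disjoint_iff.2 ⟨u, huf, hu⟩⟩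
      by_cases h3 : e i ⊆ surv e S
      · rw [if_pos ⟨hi, h3⟩, if_pos (h2.1 h3), mul_one]
      · rw [if_neg (fun h => h3 h.2), if_neg (fun h => h3 (h2.2 h))]; ring
    · rw [if_neg hi, if_neg (fun h => hi h.1), mul_zero]
  calc _ = ∑ v ∈ surv e S,
        ((∑ i ∈ Tv e v, κ * w i * (if Disjoint S (Nb e v i) then 1 else 0)) - 1) ^ 2 :=
        sum_congr rfl fun v hv => by rw [h1 v hv]
    _ ≤ _ := sum_le_sum_of_subset_of_nonneg (subset_univ _) fun v _ _ => sq_nonneg _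

theorem sum_cod_le (hw : ∀ i, 0 ≤ w i) (hr : ∀ i, (e i).card = r) (hdeg : ∀ v, deg e w v ≤ D)
    (v : V) : ∑ u ∈ univ.erase v, cod e w u v ≤ r * D := by
  have h := sum_cod (e := e) (w := w) (fun _ => 1) v
  simp only [mul_one] at h
  rw [← h]
  have hdv : ∑ i ∈ Tv e v, w i = deg e w v := by rw [deg_eq']; rfl
  calc _ ≤ ∑ i ∈ univ.filter (fun i => v ∈ e i), w i * r := by
        refine sum_le_sum fun i _ => mul_le_mul_of_nonneg_left ?_ (hw i)
        rw [sum_const, nsmul_eq_mul, mul_one]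
        have := card_le_card (erase_subset v (e i))
        rw [hr] at this
        exact_mod_cast this
    _ = deg e w v * r := by rw [← sum_mul]; rw [← hdv]; rfl
    _ ≤ D * r := mul_le_mul_of_nonneg_right (hdeg v) (by positivity)
    _ = _ := mul_comm _ _

theorem sum_B_le (hw : ∀ i, 0 ≤ w i) (hr : ∀ i, (e i).card = r) (hdeg : ∀ v, deg e w v ≤ D)
    (hD : 0 ≤ D) :
    ∑ v, (∑ u ∈ univ.erase v, cod e w u v * |deg e w u - 1|) ^ 2 ≤ (r * D) ^ 2 * dev e w := by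
  have hrD : 0 ≤ (r : ℝ) * D := by positivity
  have h1 : ∀ v, (∑ u ∈ univ.erase v, cod e w u v * |deg e w u - 1|) ^ 2 ≤
      (r * D) * ∑ u ∈ univ.erase v, cod e w u v * (deg e w u - 1) ^ 2 := by
    intro v
    have h2 := Finset.sum_sq_le_sum_mul_sum_of_sq_le_mul (univ.erase v)
      (r := fun u => cod e w u v * |deg e w u - 1|) (f := fun u => cod e w u v)
      (g := fun u => cod e w u v * (deg e w u - 1) ^ 2) (fun u _ => cod_nonneg hw u v)
      (fun u _ => mul_nonneg (cod_nonneg hw u v) (sq_nonneg _)) (fun u _ => by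
        rw [mul_pow, sq_abs]; apply le_of_eq; ring)
    refine h2.trans (mul_le_mul_of_nonneg_right (sum_cod_le hw hr hdeg v) ?_)
    exact sum_nonneg fun u _ => mul_nonneg (cod_nonneg hw u v) (sq_nonneg _)
  refine (sum_le_sum fun v _ => h1 v).trans ?_
  rw [← mul_sum]
  have h3 : ∑ v, ∑ u ∈ univ.erase v, cod e w u v * (deg e w u - 1) ^ 2 =
      ∑ u, (∑ v ∈ univ.erase u, cod e w v u) * (deg e w u - 1) ^ 2 := by
    rw [sum_comm' (s' := fun u => univ.erase u) (t' := univ) (by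
      intro x y; simp [eq_comm])]
    refine sum_congr rfl fun u _ => ?_
    rw [sum_mul]
    exact sum_congr rfl fun v _ => by rw [cod_comm]
  rw [h3]
  have h4 : ∑ u, (∑ v ∈ univ.erase u, cod e w v u) * (deg e w u - 1) ^ 2 ≤ (r * D) * dev e w := by
    unfold dev
    rw [mul_sum]
    exact sum_le_sum fun u _ => mul_le_mul_of_nonneg_right (sum_cod_le hw hr hdeg u) (sq_nonneg _)
  calc _ ≤ (r * D) * ((r * D) * dev e w) := mul_le_mul_of_nonneg_left h4 hrD
    _ = _ := by ring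

theorem ex_dev (hw : ∀ i, 0 ≤ w i) (hr : ∀ i, (e i).card = r) (h2 : 2 ≤ r) (hε : 0 ≤ ε)
    (hε1 : ε ≤ 1 / 8) (hδ : 0 ≤ δ) (hδ1 : δ ≤ 1) (hD : 1 ≤ D) (hdeg : ∀ v, deg e w v ≤ D)
    (hcod : ∀ u v, u ≠ v → cod e w u v ≤ δ) (hd1 : ((r : ℝ) * r + r * D) * δ ≤ 1) :
    ex (fun i => ε * w i) (fun S => dev' e w (Real.exp (ε * (r - 1))) S) ≤
      (3 + 3 * Real.exp (r * D + 1) ^ 2 * (r * D) ^ 2) * dev e w +
        (3 * Real.exp (r * D + 1) ^ 2 * (((r : ℝ) * r + r * D) * δ) ^ 2 * D ^ 2 +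
          Real.exp (ε * (r - 1)) ^ 2 * (r * r * δ * D ^ 2 + D * (r * δ))) * Fintype.card V := by
  have hwδ : ∀ f, w f ≤ δ := w_le hw hr h2 hcod
  have hp0 : ∀ i, 0 ≤ ε * w i := fun i => mul_nonneg hε (hw i)
  have hp1 : ∀ i, ε * w i ≤ 1 := fun i => by
    have h3 := hwδ i
    have h4 := hw i
    nlinarith
  obtain ⟨κ, hκ⟩ : ∃ κ, κ = Real.exp (ε * (r - 1)) := ⟨_, rfl⟩
  obtain ⟨Y, hY⟩ : ∃ Y, Y = Real.exp (r * D + 1) := ⟨_, rfl⟩
  obtain ⟨d, hd⟩ : ∃ d, d = ((r : ℝ) * r + r * D) * δ := ⟨_, rfl⟩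
  have hκ0 : 0 < κ := by rw [hκ]; exact Real.exp_pos _
  have hY0 : 0 < Y := by rw [hY]; exact Real.exp_pos _
  have hD0 : 0 ≤ D := by linarith
  have hd0 : 0 ≤ d := by rw [hd]; positivity
  rw [← hκ, ← hY, ← hd]
  obtain ⟨a, ha⟩ : ∃ a : V → ℝ, a = fun u => deg e w u - 1 := ⟨_, rfl⟩
  obtain ⟨B, hB⟩ : ∃ B : V → ℝ, B = fun v => ∑ u ∈ univ.erase v, cod e w u v * |deg e w u - 1| :=
    ⟨_, rfl⟩
  have hB0 : ∀ v, 0 ≤ B v := fun v => by
    rw [hB]
    exact sum_nonneg fun u _ => mul_nonneg (cod_nonneg hw u v) (abs_nonneg _)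
  have hdv : ∀ v, ∑ i ∈ Tv e v, w i = deg e w v := fun v => by rw [deg_eq']; rfl
  have hmean : ∀ v, ((∑ i ∈ Tv e v, κ * w i * ∏ f ∈ Nb e v i, (1 - ε * w f)) - 1) ^ 2 ≤
      3 * (a v ^ 2 + Y ^ 2 * B v ^ 2 + Y ^ 2 * d ^ 2 * D ^ 2) := by
    intro v
    have h3 : (∑ i ∈ Tv e v, κ * w i * ∏ f ∈ Nb e v i, (1 - ε * w f)) - 1 =
        (∑ i ∈ Tv e v, w i * (κ * ∏ f ∈ Nb e v i, (1 - ε * w f) - 1)) + a v := by
      rw [ha]
      simp only
      rw [← hdv, ← sub_eq_zero]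
      have : ∑ i ∈ Tv e v, w i * (κ * ∏ f ∈ Nb e v i, (1 - ε * w f) - 1) =
          ∑ i ∈ Tv e v, κ * w i * ∏ f ∈ Nb e v i, (1 - ε * w f) - ∑ i ∈ Tv e v, w i := by
        rw [← sum_sub_distrib]
        exact sum_congr rfl fun i _ => by ring
      rw [this]; ring
    have h4 : |∑ i ∈ Tv e v, w i * (κ * ∏ f ∈ Nb e v i, (1 - ε * w f) - 1)| ≤
        Y * (B v + d * D) := by
      refine (abs_sum_le_sum_abs _ _).trans ?_
      calc _ ≤ ∑ i ∈ Tv e v, (Y * (w i * ∑ u ∈ (e i).erase v, |deg e w u - 1|) + Y * (d * w i)) := by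
            refine sum_le_sum fun i hi => ?_
            rw [abs_mul, abs_of_nonneg (hw i)]
            have h5 := mean_le hw hr h2 hε hε1 hδ hδ1 hD hdeg hcod (mem_Tv.1 hi) hd1
            rw [← hκ, ← hY, ← hd] at h5
            calc w i * |κ * ∏ f ∈ Nb e v i, (1 - ε * w f) - 1| ≤
                w i * (Y * (∑ u ∈ (e i).erase v, |deg e w u - 1| + d)) :=
                mul_le_mul_of_nonneg_left h5 (hw i)
              _ = _ := by ring
        _ = Y * (B v + d * deg e w v) := by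
            rw [sum_add_distrib, ← mul_sum, ← mul_sum, ← mul_sum, hdv, hB]
            have h6 := sum_cod (e := e) (w := w) (fun u => |deg e w u - 1|) v
            show Y * (∑ i ∈ univ.filter (fun i => v ∈ e i),
              w i * ∑ u ∈ (e i).erase v, |deg e w u - 1|) + Y * (d * deg e w v) = _
            rw [h6]; ring
        _ ≤ _ := by
            refine mul_le_mul_of_nonneg_left ?_ hY0.le
            have := mul_le_mul_of_nonneg_left (hdeg v) hd0
            linarith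
    rw [h3]
    have h5 : |(∑ i ∈ Tv e v, w i * (κ * ∏ f ∈ Nb e v i, (1 - ε * w f) - 1)) + a v| ≤
        |a v| + Y * B v + Y * d * D := by
      refine (abs_add_le _ _).trans ?_
      linarith
    rw [← sq_abs]
    calc _ ≤ (|a v| + Y * B v + Y * d * D) ^ 2 := pow_le_pow_left₀ (abs_nonneg _) h5 2
      _ ≤ 3 * (|a v| ^ 2 + (Y * B v) ^ 2 + (Y * d * D) ^ 2) := by
          nlinarith [sq_nonneg (|a v| - Y * B v), sq_nonneg (|a v| - Y * d * D),
            sq_nonneg (Y * B v - Y * d * D)]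
      _ = _ := by rw [sq_abs]; ring
  have hv : ∀ v, ex (fun i => ε * w i) (fun S =>
      ((∑ i ∈ Tv e v, κ * w i * (if Disjoint S (Nb e v i) then 1 else 0)) - 1) ^ 2) ≤
      3 * (a v ^ 2 + Y ^ 2 * B v ^ 2 + Y ^ 2 * d ^ 2 * D ^ 2) +
        κ ^ 2 * (r * r * δ * D ^ 2 + D * (r * δ)) := by
    intro v
    refine (ex_sq hp0 hp1 (Tv e v) (c := fun i => κ * w i)
      (fun i => mul_nonneg hκ0.le (hw i)) (Nb e v)).trans ?_
    exact add_le_add (hmean v) (cov_le hw hr hε (by linarith) hδ hp1 hdeg hcod v)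
  calc _ ≤ ex (fun i => ε * w i) (fun S => ∑ v,
        ((∑ i ∈ Tv e v, κ * w i * (if Disjoint S (Nb e v i) then 1 else 0)) - 1) ^ 2) :=
        ex_mono hp0 hp1 fun S => dev'_le κ S
    _ = ∑ v, ex (fun i => ε * w i) (fun S =>
        ((∑ i ∈ Tv e v, κ * w i * (if Disjoint S (Nb e v i) then 1 else 0)) - 1) ^ 2) :=
        ex_sum _ _ _
    _ ≤ ∑ v, (3 * (a v ^ 2 + Y ^ 2 * B v ^ 2 + Y ^ 2 * d ^ 2 * D ^ 2) +
        κ ^ 2 * (r * r * δ * D ^ 2 + D * (r * δ))) := sum_le_sum fun v _ => hv v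
    _ = 3 * (∑ v, a v ^ 2) + 3 * Y ^ 2 * (∑ v, B v ^ 2) +
        (3 * Y ^ 2 * d ^ 2 * D ^ 2 + κ ^ 2 * (r * r * δ * D ^ 2 + D * (r * δ))) *
          Fintype.card V := by
        have h5 : ((Fintype.card V : ℕ) : ℝ) = ∑ _v : V, (1 : ℝ) := by simp
        rw [h5, mul_sum, mul_sum, mul_sum, ← sum_add_distrib, ← sum_add_distrib]
        exact sum_congr rfl fun v _ => by ring
    _ ≤ _ := by
        have h6 : ∑ v, a v ^ 2 = dev e w := by rw [ha]; rfl
        have h7 : ∑ v, B v ^ 2 ≤ (r * D) ^ 2 * dev e w := by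
          rw [hB]
          exact sum_B_le hw hr hdeg hD0
        have h8 := mul_le_mul_of_nonneg_left h7 (by positivity : 0 ≤ 3 * Y ^ 2)
        rw [h6]
        linarith

end estimates

end BiteP

open BiteP in
/-- One bite. -/
theorem stBite : StBite := by
  intro r ε D hr2 hε hε1 hD
  have hD0 : 0 ≤ D := by linarith
  have hr0 : (0 : ℝ) < r := by
    have : 0 < r := by omega
    exact_mod_cast this
  obtain ⟨Y, hY⟩ : ∃ Y, Y = Real.exp (r * D + 1) := ⟨_, rfl⟩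
  obtain ⟨κ, hκ⟩ : ∃ κ, κ = Real.exp (ε * (r - 1)) := ⟨_, rfl⟩
  have hY0 : 0 < Y := by rw [hY]; exact Real.exp_pos _
  have hκ0 : 0 < κ := by rw [hκ]; exact Real.exp_pos _
  refine ⟨3 + 3 * Y ^ 2 * (r * D) ^ 2, by positivity, fun η hη => ?_⟩
  obtain ⟨q, hq⟩ : ∃ q : ℝ, q = (r : ℝ) * r + r * D := ⟨_, rfl⟩
  have hq0 : 0 < q := by rw [hq]; positivity
  obtain ⟨B, hB⟩ : ∃ B : ℝ, B = 3 * Y ^ 2 * q * D ^ 2 + κ ^ 2 * (r * r * D ^ 2 + D * r) := ⟨_, rfl⟩
  have hB0 : 0 < B := by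
    rw [hB]
    have : 0 < D := by linarith
    positivity
  refine ⟨min 1 (min (1 / q) (η / B)), by positivity, ?_⟩
  intro V ι _ _ _ _ e w hw hr hdeg hcod a b ha hb
  obtain ⟨δ, hδ⟩ : ∃ δ, δ = min 1 (min (1 / q) (η / B)) := ⟨_, rfl⟩
  rw [← hδ] at hcod
  have hδ0 : 0 < δ := by rw [hδ]; positivity
  have hδ1 : δ ≤ 1 := by rw [hδ]; exact min_le_left _ _
  have hδ2 : q * δ ≤ 1 := by
    have : δ ≤ 1 / q := by rw [hδ]; exact (min_le_right _ _).trans (min_le_left _ _)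
    rw [le_div_iff₀ hq0] at this
    linarith
  have hδ3 : B * δ ≤ η := by
    have : δ ≤ η / B := by rw [hδ]; exact (min_le_right _ _).trans (min_le_right _ _)
    rw [le_div_iff₀ hB0] at this
    linarith
  have hwδ : ∀ f, w f ≤ δ := w_le hw hr hr2 hcod
  have hp0 : ∀ i, 0 ≤ ε * w i := fun i => mul_nonneg hε.le (hw i)
  have hp1 : ∀ i, ε * w i ≤ 1 := fun i => by
    have h3 := hwδ i
    have h4 := hw i
    nlinarith
  have hdev0 : 0 ≤ dev e w := by
    unfold dev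
    exact sum_nonneg fun v _ => sq_nonneg _
  have h1 := ex_waste (e := e) hw hr hε.le hp1
  have h2 := ex_surv (e := e) hw hε hε1 hp1
  have h3 := ex_dev hw hr hr2 hε.le hε1 hδ0.le hδ1 hD hdeg hcod (by rw [← hq]; exact hδ2)
  rw [← hκ, ← hY, ← hq] at h3
  have h4 : 3 * Y ^ 2 * (q * δ) ^ 2 * D ^ 2 + κ ^ 2 * (r * r * δ * D ^ 2 + D * (r * δ)) ≤ η := by
    refine le_trans ?_ hδ3
    have h5 : (q * δ) ^ 2 ≤ q * δ := by
      have : 0 ≤ q * δ := by positivity
      nlinarith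
    have h6 : 3 * Y ^ 2 * (q * δ) ^ 2 * D ^ 2 ≤ 3 * Y ^ 2 * (q * δ) * D ^ 2 := by
      have h7 : 0 ≤ 3 * Y ^ 2 * D ^ 2 := by positivity
      calc 3 * Y ^ 2 * (q * δ) ^ 2 * D ^ 2 = 3 * Y ^ 2 * D ^ 2 * (q * δ) ^ 2 := by ring
        _ ≤ 3 * Y ^ 2 * D ^ 2 * (q * δ) := mul_le_mul_of_nonneg_left h5 h7
        _ = _ := by ring
    calc _ ≤ 3 * Y ^ 2 * (q * δ) * D ^ 2 + κ ^ 2 * (r * r * δ * D ^ 2 + D * (r * δ)) := by linarith
      _ = B * δ := by rw [hB]; ring
  have h5 := mul_le_mul_of_nonneg_right h4 (by positivity : (0 : ℝ) ≤ Fintype.card V)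
  rw [← hκ]
  refine exists_le hp0 hp1 ?_
  rw [ex_add, ex_add, ex_mul, ex_mul]
  have h6 := mul_le_mul_of_nonneg_left h2 ha
  have h7 := mul_le_mul_of_nonneg_left (h3.trans (add_le_add le_rfl h5)) hb
  linarith

end Pool.Agent.Nibble

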