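import Pool.Agent.Lib.Nibble.Stmts

/-!
Exact fractional perfect matching from a nearly regular weighting (contraction argument).
-/

set_option autoImplicit false

namespace Pool.Agent.Nibble

open Finset

namespace ContractAux

variable {V E : Type} [Fintype V] [Fintype E]

/-- the vertices of a type -/
def ty (τ : V → Fin 3) (t : Fin 3) : Finset V := univ.filter fun v => τ v = t

lemma mem_ty {τ : V → Fin 3} {t : Fin 3} {v : V} : v ∈ ty τ t ↔ τ v = t := by simp [ty]

/-- the codegree operator -/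
noncomputable def Mop (N : E → V → ℝ) (w0 : E → ℝ) : (V → ℝ) →ₗ[ℝ] (V → ℝ) where
  toFun β v := ∑ e, w0 e * N e v * ∑ u, N e u * β u
  map_add' β γ := by
    ext v
    simp only [Pi.add_apply]
    rw [← Finset.sum_add_distrib]
    refine Finset.sum_congr rfl fun e _ => ?_
    rw [← mul_add, ← Finset.sum_add_distrib]
    congr 1
    exact Finset.sum_congr rfl fun u _ => by ring
  map_smul' a β := by
    ext v
    simp only [Pi.smul_apply, smul_eq_mul, RingHom.id_apply]
    rw [Finset.mul_sum]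
    refine Finset.sum_congr rfl fun e _ => ?_
    rw [Finset.mul_sum, Finset.mul_sum, Finset.mul_sum]
    exact Finset.sum_congr rfl fun u _ => by ring

lemma Mop_apply (N : E → V → ℝ) (w0 : E → ℝ) (β : V → ℝ) (v : V) :
    Mop N w0 β v = ∑ e, w0 e * N e v * ∑ u, N e u * β u := rfl

/-- subtract the mean on every type -/
noncomputable def Pop (τ : V → Fin 3) (k : Fin 3 → ℝ) : (V → ℝ) →ₗ[ℝ] (V → ℝ) where
  toFun β v := β v - (∑ u ∈ ty τ (τ v), β u) / k (τ v)
  map_add' β γ := by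
    ext v
    simp only [Pi.add_apply]
    rw [Finset.sum_add_distrib]
    ring
  map_smul' a β := by
    ext v
    simp only [Pi.smul_apply, smul_eq_mul, RingHom.id_apply]
    rw [← Finset.mul_sum]
    ring

lemma Pop_apply (τ : V → Fin 3) (k : Fin 3 → ℝ) (β : V → ℝ) (v : V) :
    Pop τ k β v = β v - (∑ u ∈ ty τ (τ v), β u) / k (τ v) := rfl

/-- functions with mean zero on every type -/
def Xs (τ : V → Fin 3) : Submodule ℝ (V → ℝ) where
  carrier := {β | ∀ t, ∑ v ∈ ty τ t, β v = 0}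
  add_mem' := by
    intro β γ hβ hγ t
    simp only [Pi.add_apply, Finset.sum_add_distrib]
    rw [hβ t, hγ t, add_zero]
  zero_mem' := by
    intro t
    simp
  smul_mem' := by
    intro a β hβ t
    simp only [Pi.smul_apply, smul_eq_mul]
    rw [← Finset.mul_sum, hβ t, mul_zero]

lemma mem_Xs {τ : V → Fin 3} {β : V → ℝ} : β ∈ Xs τ ↔ ∀ t, ∑ v ∈ ty τ t, β v = 0 := Iff.rfl

variable {τ : V → Fin 3} {k s : Fin 3 → ℝ}

lemma Pop_mem (hk : ∀ t, 0 < k t) (hcard : ∀ t, ((ty τ t).card : ℝ) = k t) (β : V → ℝ) :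
    Pop τ k β ∈ Xs τ := by
  intro t
  have h1 : ∑ v ∈ ty τ t, Pop τ k β v
      = ∑ v ∈ ty τ t, (β v - (∑ u ∈ ty τ t, β u) / k t) := by
    refine Finset.sum_congr rfl fun v hv => ?_
    rw [Pop_apply, mem_ty.1 hv]
  rw [h1, Finset.sum_sub_distrib, Finset.sum_const, nsmul_eq_mul, hcard t,
    mul_div_cancel₀ _ (hk t).ne', sub_self]

lemma Pop_id {β : V → ℝ} (h : β ∈ Xs τ) : Pop τ k β = β := by
  ext v
  rw [Pop_apply, mem_Xs.1 h, zero_div, sub_zero]

lemma Pop_bd (hk : ∀ t, 0 < k t) (hcard : ∀ t, ((ty τ t).card : ℝ) = k t) {β : V → ℝ} {K : ℝ}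
    (h : ∀ v, |β v| ≤ K * s (τ v)) (v : V) : |Pop τ k β v| ≤ 2 * K * s (τ v) := by
  have h1 : |∑ u ∈ ty τ (τ v), β u| ≤ k (τ v) * (K * s (τ v)) := by
    refine (Finset.abs_sum_le_sum_abs _ _).trans ?_
    calc ∑ u ∈ ty τ (τ v), |β u| ≤ ∑ u ∈ ty τ (τ v), K * s (τ v) := by
          refine Finset.sum_le_sum fun u hu => ?_
          have := h u
          rwa [mem_ty.1 hu] at this
      _ = k (τ v) * (K * s (τ v)) := by rw [Finset.sum_const, nsmul_eq_mul, hcard]
  have h2 : |(∑ u ∈ ty τ (τ v), β u) / k (τ v)| ≤ K * s (τ v) := by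
    rw [abs_div, abs_of_pos (hk (τ v)), div_le_iff₀ (hk _)]
    linarith
  rw [Pop_apply]
  refine (abs_sub _ _).trans ?_
  linarith [h v]

/-- homogeneous form of the hypothesis -/
lemma Mop_bd {N : E → V → ℝ} {w0 : E → ℝ}
    (hop : ∀ β : V → ℝ, (∀ v, |β v| ≤ s (τ v)) → (∀ t, (∑ v ∈ ty τ t, β v) = 0) →
      ∀ v, |(∑ e, w0 e * N e v * ∑ u, N e u * β u) - β v| ≤ s (τ v) / 4)
    {β : V → ℝ} (hβ : β ∈ Xs τ) {K : ℝ} (hK : 0 ≤ K) (h : ∀ v, |β v| ≤ K * s (τ v)) (v : V) :
    |(Mop N w0 β - β) v| ≤ K / 4 * s (τ v) := by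
  rcases hK.eq_or_lt with h0 | h0
  · have hz : β = 0 := by
      ext v
      have := h v
      rw [← h0, zero_mul] at this
      exact abs_nonpos_iff.1 this
    rw [hz, map_zero, sub_zero, Pi.zero_apply, abs_zero, ← h0]
    simp
  · have h1 := hop (K⁻¹ • β) (fun v => by
      rw [Pi.smul_apply, smul_eq_mul, abs_mul, abs_of_pos (inv_pos.2 h0)]
      have := h v
      rw [inv_mul_le_iff₀ h0]
      exact this) ((Xs τ).smul_mem K⁻¹ hβ) v
    have h2 : (∑ e, w0 e * N e v * ∑ u, N e u * (K⁻¹ • β) u) - (K⁻¹ • β) v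
        = K⁻¹ * (Mop N w0 β - β) v := by
      have := congrFun ((Mop N w0).map_smul K⁻¹ β) v
      rw [Mop_apply] at this
      rw [this, Pi.smul_apply, Pi.smul_apply, Pi.sub_apply, smul_eq_mul, smul_eq_mul]
      ring
    rw [h2, abs_mul, abs_of_pos (inv_pos.2 h0), inv_mul_le_iff₀ h0] at h1
    linarith

lemma apriori [Nonempty V] (hk : ∀ t, 0 < k t) (hcard : ∀ t, ((ty τ t).card : ℝ) = k t)
    (hs : ∀ t, 0 < s t) {N : E → V → ℝ} {w0 : E → ℝ}
    (hop : ∀ β : V → ℝ, (∀ v, |β v| ≤ s (τ v)) → (∀ t, (∑ v ∈ ty τ t, β v) = 0) →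
      ∀ v, |(∑ e, w0 e * N e v * ∑ u, N e u * β u) - β v| ≤ s (τ v) / 4)
    {β : V → ℝ} (hβ : β ∈ Xs τ) {G : ℝ}
    (h : ∀ v, |Pop τ k (Mop N w0 β) v| ≤ G * s (τ v)) (v : V) : |β v| ≤ 2 * G * s (τ v) := by
  obtain ⟨v0, -, hv0⟩ := Finset.exists_max_image (univ : Finset V) (fun v => |β v| / s (τ v))
    univ_nonempty
  set K : ℝ := |β v0| / s (τ v0) with hK
  have hK0 : 0 ≤ K := div_nonneg (abs_nonneg _) (hs _).le
  have hB : ∀ v, |β v| ≤ K * s (τ v) := fun v => by
    have := hv0 v (mem_univ v)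
    rwa [div_le_iff₀ (hs _)] at this
  have h1 := Mop_bd hop hβ hK0 hB
  have h2 := Pop_bd hk hcard h1 v0
  have h3 : β v0 = Pop τ k (Mop N w0 β) v0 - Pop τ k (Mop N w0 β - β) v0 := by
    rw [map_sub, Pi.sub_apply, Pop_id hβ]
    ring
  have h4 : |β v0| = K * s (τ v0) := by
    rw [hK, div_mul_cancel₀ _ (hs _).ne']
  have h5 : |β v0| ≤ |Pop τ k (Mop N w0 β) v0| + |Pop τ k (Mop N w0 β - β) v0| := by
    conv_lhs => rw [h3]
    exact abs_sub _ _
  have h6 : K * s (τ v0) ≤ (G + K / 2) * s (τ v0) := by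
    rw [← h4]
    refine h5.trans ?_
    have := h v0
    nlinarith
  have h7 : K ≤ 2 * G := by
    have := le_of_mul_le_mul_right h6 (hs _)
    linarith
  refine (hB v).trans ?_
  exact mul_le_mul_of_nonneg_right h7 (hs _).le

end ContractAux

open ContractAux in
/-- the contraction lemma -/
theorem stContract : StContract := by
  intro V E _ _ _ τ N w0 c N0 s b0 hN0 hc hs hb0 hN hw0 hcnt hcard hdeg hop hsm
  have hk : ∀ t, 0 < c t * N0 := fun t => mul_pos (by linarith [hc t]) hN0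
  have hcard' : ∀ t, ((ty τ t).card : ℝ) = c t * N0 := hcard
  have hop' : ∀ β : V → ℝ, (∀ v, |β v| ≤ s (τ v)) → (∀ t, (∑ v ∈ ty τ t, β v) = 0) →
      ∀ v, |(∑ e, w0 e * N e v * ∑ u, N e u * β u) - β v| ≤ s (τ v) / 4 := hop
  have hne : Nonempty V := by
    have h1 : 0 < (ty τ 0).card := by
      have := hk 0
      rw [← hcard' 0] at this
      exact_mod_cast this
    obtain ⟨v, -⟩ := Finset.card_pos.1 h1
    exact ⟨v⟩
  set k : Fin 3 → ℝ := fun t => c t * N0 with hkdef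
  -- the operator on functions with mean zero
  let L : Xs τ →ₗ[ℝ] Xs τ :=
    ((Pop τ k).comp ((Mop N w0).comp (Xs τ).subtype)).codRestrict (Xs τ)
      (fun β => Pop_mem hk hcard' _)
  have hL : ∀ β : Xs τ, ((L β : Xs τ) : V → ℝ) = Pop τ k (Mop N w0 β) := fun β => rfl
  have hinj : Function.Injective L := by
    rw [← LinearMap.ker_eq_bot, LinearMap.ker_eq_bot']
    intro β hβ
    have h1 : Pop τ k (Mop N w0 β) = 0 := by
      rw [← hL, hβ]; rfl
    have h2 := apriori hk hcard' hs hop' β.2 (G := 0) (fun v => by rw [h1]; simp)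
    ext v
    have := h2 v
    rw [mul_zero, zero_mul] at this
    simpa using abs_nonpos_iff.1 this
  have hsurj : Function.Surjective L := LinearMap.injective_iff_surjective.1 hinj
  set d : V → ℝ := fun v => ∑ e, w0 e * N e v with hd
  obtain ⟨β, hβ⟩ := hsurj ⟨Pop τ k ((1 : V → ℝ) - d), Pop_mem hk hcard' _⟩
  have hβ1 : Pop τ k (Mop N w0 β) = Pop τ k ((1 : V → ℝ) - d) := by
    rw [← hL, hβ]
  have hd1 : ∀ v, |((1 : V → ℝ) - d) v| ≤ b0 * s (τ v) := fun v => by
    rw [Pi.sub_apply, abs_sub_comm]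
    exact hdeg v
  have hβ2 : ∀ v, |(β : V → ℝ) v| ≤ 2 * (2 * b0) * s (τ v) :=
    apriori hk hcard' hs hop' β.2 (fun v => by
      rw [hβ1]
      exact Pop_bd hk hcard' hd1 v)
  have hβ3 := Mop_bd hop' β.2 (K := 2 * (2 * b0)) (by positivity) hβ2
  -- the new degrees are constant
  set Om : ℝ := ∑ e, w0 e * (1 + ∑ u, N e u * (β : V → ℝ) u) with hOm
  have hsum : ∀ t, ∑ v ∈ ty τ t, (Mop N w0 β v + d v) = c t * Om := by
    intro t
    have h1 : ∀ v, Mop N w0 β v + d v
        = ∑ e, N e v * (w0 e * (1 + ∑ u, N e u * (β : V → ℝ) u)) := by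
      intro v
      rw [Mop_apply, hd, ← Finset.sum_add_distrib]
      exact Finset.sum_congr rfl fun e _ => by ring
    simp_rw [h1]
    rw [Finset.sum_comm, hOm, Finset.mul_sum]
    refine Finset.sum_congr rfl fun e _ => ?_
    rw [← Finset.sum_mul]
    rcases eq_or_ne (w0 e) 0 with h0 | h0
    · rw [h0]; ring
    · congr 1
      exact hcnt e h0 t
  have hq : ∀ v, Mop N w0 β v + d v = Om / N0 := by
    intro v
    have h1 : Pop τ k (Mop N w0 β + d) = 0 := by
      rw [map_add, hβ1, ← map_add, sub_add_cancel]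
      ext v
      rw [Pop_apply]
      simp only [Pi.one_apply, Finset.sum_const, nsmul_eq_mul, mul_one, Pi.zero_apply]
      rw [hcard', div_self (hk _).ne', sub_self]
    have h2 := congrFun h1 v
    rw [Pop_apply, Pi.zero_apply] at h2
    have h3 : ∑ u ∈ ty τ (τ v), (Mop N w0 β + d) u = c (τ v) * Om := hsum (τ v)
    rw [h3, hkdef] at h2
    have h4 : c (τ v) * Om / (c (τ v) * N0) = Om / N0 :=
      mul_div_mul_left _ _ (by linarith [hc (τ v)])
    simp only [Pi.add_apply] at h2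
    rw [h4] at h2
    linarith
  -- sizes
  have hterm : ∀ t, 0 ≤ c t * s t := fun t => mul_nonneg (by linarith [hc t]) (hs t).le
  have hbs : ∀ t, 32 * (b0 * s t) ≤ 1 := by
    intro t
    have h1 : s t ≤ c t * s t := by nlinarith [hc t, hs t]
    have h2 : c t * s t ≤ ∑ t, c t * s t :=
      Finset.single_le_sum (f := fun t => c t * s t) (fun t _ => hterm t) (mem_univ t)
    nlinarith
  obtain ⟨v1⟩ := hne
  have hq1 : |Om / N0 - 1| ≤ 6 / 32 := by
    have h1 : Om / N0 - 1 = (Mop N w0 β - β) v1 + (β : V → ℝ) v1 + (d v1 - 1) := by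
      rw [← hq v1, Pi.sub_apply]
      ring
    rw [h1]
    have h2 := hβ3 v1
    have h3 := hβ2 v1
    have h4 := hdeg v1
    have h5 := hbs (τ v1)
    refine (abs_add_three _ _ _).trans ?_
    change |d v1 - 1| ≤ _ at h4
    nlinarith
  have hq2 := abs_le.1 hq1
  have hq3 : 0 < Om / N0 := by linarith
  have hin : ∀ e, w0 e ≠ 0 → |∑ u, N e u * (β : V → ℝ) u| ≤ 1 / 8 := by
    intro e he
    calc |∑ u, N e u * (β : V → ℝ) u| ≤ ∑ u, |N e u * (β : V → ℝ) u| :=
          Finset.abs_sum_le_sum_abs _ _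
      _ ≤ ∑ u, N e u * (4 * b0 * s (τ u)) := by
          refine Finset.sum_le_sum fun u _ => ?_
          rw [abs_mul, abs_of_nonneg (hN e u)]
          refine mul_le_mul_of_nonneg_left ?_ (hN e u)
          linarith [hβ2 u]
      _ = ∑ t, ∑ u ∈ ty τ t, N e u * (4 * b0 * s (τ u)) := by
          rw [← Finset.sum_fiberwise (univ : Finset V) τ]
          rfl
      _ = ∑ t, 4 * b0 * (c t * s t) := by
          refine Finset.sum_congr rfl fun t _ => ?_
          rw [← hcnt e he t, Finset.sum_mul, Finset.mul_sum]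
          refine Finset.sum_congr rfl fun u hu => ?_
          rw [mem_ty.1 hu]
          ring
      _ = 4 * b0 * ∑ t, c t * s t := by rw [Finset.mul_sum]
      _ ≤ 1 / 8 := by linarith
  refine ⟨fun e => w0 e * (1 + ∑ u, N e u * (β : V → ℝ) u) / (Om / N0), fun e => ?_, fun v => ?_⟩
  · rcases eq_or_ne (w0 e) 0 with h0 | h0
    · simp [h0]
    · have h1 := abs_le.1 (hin e h0)
      have h2 := hw0 e
      constructor
      · exact div_nonneg (mul_nonneg h2 (by linarith)) hq3.le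
      · rw [div_le_iff₀ hq3]
        nlinarith
  · have h1 : ∀ e, w0 e * (1 + ∑ u, N e u * (β : V → ℝ) u) / (Om / N0) * N e v
        = (w0 e * N e v * (∑ u, N e u * (β : V → ℝ) u) + w0 e * N e v) / (Om / N0) := by
      intro e
      ring
    simp_rw [h1]
    rw [← Finset.sum_div, Finset.sum_add_distrib, ← Mop_apply]
    change (Mop N w0 β v + d v) / (Om / N0) = 1
    rw [hq v, div_self hq3.ne']

end Pool.Agent.Nibble
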