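import Pool.Agent.Lib.Nibble.Stmts

/-!
# NB-1. Expanders by counting
-/

set_option autoImplicit false

namespace Pool.Agent.Nibble

open Finset

namespace ExpanderAux

/-- the functions which map `S` into `T` -/
theorem card_bad {A B : Type} [Fintype A] [DecidableEq A] [Fintype B] [DecidableEq B]
    (S : Finset A) (T : Finset B) :
    (univ.filter fun f : A → Fin 16 → B => ∀ a ∈ S, ∀ j, f a j ∈ T).card =
      (T.card ^ 16) ^ S.card * (Fintype.card B ^ 16) ^ (Fintype.card A - S.card) := by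
  have h1 : (univ.filter fun f : A → Fin 16 → B => ∀ a ∈ S, ∀ j, f a j ∈ T) =
      Fintype.piFinset fun a => if a ∈ S then Fintype.piFinset (fun _ : Fin 16 => T) else univ := by
    ext f
    simp only [mem_filter, mem_univ, true_and, Fintype.mem_piFinset]
    constructor
    · intro h a
      by_cases ha : a ∈ S
      · rw [if_pos ha, Fintype.mem_piFinset]
        exact h a ha
      · rw [if_neg ha]
        exact mem_univ _
    · intro h a ha j
      have := h a
      rw [if_pos ha, Fintype.mem_piFinset] at this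
      exact this j
  rw [h1, Fintype.card_piFinset]
  have h2 : ∀ a : A, (if a ∈ S then Fintype.piFinset (fun _ : Fin 16 => T)
      else (univ : Finset (Fin 16 → B))).card = if a ∈ S then T.card ^ 16
        else Fintype.card B ^ 16 := by
    intro a
    split_ifs
    · simp
    · simp
  rw [Finset.prod_congr rfl fun a _ => h2 a, Finset.prod_ite, Finset.prod_const,
    Finset.prod_const]
  congr 2
  · congr 1
    ext a
    simp
  · have : (univ.filter fun a => a ∉ S) = Sᶜ := by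
      ext a
      simp
    rw [this, Finset.card_compl]

theorem choose_bd (n s : ℕ) (hs : 1 ≤ s) : (n.choose s : ℝ) ≤ (3 * n / s) ^ s := by
  have hs0 : (0 : ℝ) < s := by exact_mod_cast hs
  have h1 : (n.choose s : ℝ) ≤ (n : ℝ) ^ s / (s.factorial : ℝ) := by
    exact_mod_cast Nat.choose_le_pow_div s n
  have h2 : (s : ℝ) ^ s / (s.factorial : ℝ) ≤ 3 ^ s := by
    refine (Real.pow_div_factorial_le_exp (s : ℝ) hs0.le s).trans ?_
    have h3 : Real.exp (s : ℝ) = Real.exp 1 ^ s := by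
      rw [← Real.exp_nat_mul, mul_one]
    rw [h3]
    exact pow_le_pow_left₀ (Real.exp_pos 1).le (by
      have := Real.exp_one_lt_d9
      linarith) s
  have hf : (0 : ℝ) < (s.factorial : ℝ) := by exact_mod_cast s.factorial_pos
  refine h1.trans ?_
  have h4 : (n : ℝ) ^ s / (s.factorial : ℝ) = ((n : ℝ) / s) ^ s * ((s : ℝ) ^ s / s.factorial) := by
    rw [div_pow]
    field_simp
  rw [h4]
  calc ((n : ℝ) / s) ^ s * ((s : ℝ) ^ s / s.factorial) ≤ ((n : ℝ) / s) ^ s * 3 ^ s :=
        mul_le_mul_of_nonneg_left h2 (by positivity)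
    _ = (3 * n / s) ^ s := by
        rw [← mul_pow]
        congr 1
        ring

/-- the terms of the union bound -/
theorem term_bd (nA nB s : ℕ) (hs : 2 ≤ s) (hB : 0 < nB) (hsB : s - 1 ≤ nB)
    (hx : 9 * ((nA : ℝ) / nB) * (((s - 1 : ℕ) : ℝ) / nB) ^ 14 ≤ 1 / 4) :
    (nA.choose s : ℝ) * (nB.choose (s - 1) : ℝ) * ((((s - 1 : ℕ) : ℝ) / nB) ^ 16) ^ s ≤
      (1 / 4) ^ s := by
  set t := s - 1 with ht
  have hst : s = t + 1 := by omega
  have ht1 : 1 ≤ t := by omega
  have ht0 : (0 : ℝ) < t := by exact_mod_cast ht1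
  have hs0 : (0 : ℝ) < s := by
    have : 0 < s := by omega
    exact_mod_cast this
  have hB0 : (0 : ℝ) < nB := by exact_mod_cast hB
  have hts : (t : ℝ) ≤ s := by
    rw [hst]
    push_cast
    linarith
  have htB : (t : ℝ) ≤ nB := by exact_mod_cast hsB
  have h1 : (nA.choose s : ℝ) ≤ (3 * nA / t) ^ s := by
    refine (choose_bd nA s (by omega)).trans (pow_le_pow_left₀ (by positivity) ?_ s)
    exact div_le_div_of_nonneg_left (by positivity) ht0 hts
  have h2 : (nB.choose t : ℝ) ≤ (3 * nB / t) ^ s := by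
    refine (choose_bd nB t ht1).trans ?_
    have h3 : (1 : ℝ) ≤ 3 * nB / t := by
      rw [le_div_iff₀ ht0]
      linarith
    exact pow_le_pow_right₀ h3 (by omega)
  have h4 : (3 * (nA : ℝ) / t) * (3 * nB / t) * ((t : ℝ) / nB) ^ 16 =
      9 * ((nA : ℝ) / nB) * ((t : ℝ) / nB) ^ 14 := by
    have : ((t : ℝ) / nB) ^ 16 = ((t : ℝ) / nB) ^ 14 * ((t : ℝ) / nB) ^ 2 := by
      rw [← pow_add]
    rw [this]
    field_simp
    ring
  calc (nA.choose s : ℝ) * (nB.choose t : ℝ) * (((t : ℝ) / nB) ^ 16) ^ s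
      ≤ (3 * nA / t) ^ s * (3 * nB / t) ^ s * (((t : ℝ) / nB) ^ 16) ^ s := by
        refine mul_le_mul_of_nonneg_right ?_ (by positivity)
        exact mul_le_mul h1 h2 (by positivity) (by positivity)
    _ = ((3 * (nA : ℝ) / t) * (3 * nB / t) * ((t : ℝ) / nB) ^ 16) ^ s := by
        rw [mul_pow, mul_pow]
    _ = (9 * ((nA : ℝ) / nB) * ((t : ℝ) / nB) ^ 14) ^ s := by rw [h4]
    _ ≤ (1 / 4) ^ s := pow_le_pow_left₀ (by positivity) hx s

/-- the union bound -/
theorem expander (A B : Type) [Fintype A] [DecidableEq A] [Fintype B] [DecidableEq B] (K : ℕ)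
    (hB : 0 < Fintype.card B) (hK : K ≤ Fintype.card B + 1)
    (hx : ∀ s, 2 ≤ s → s ≤ K → 9 * ((Fintype.card A : ℝ) / Fintype.card B) *
      (((s - 1 : ℕ) : ℝ) / Fintype.card B) ^ 14 ≤ 1 / 4) :
    ∃ f : A → Fin 16 → B, ∀ S : Finset A, S.card ≤ K →
      S.card ≤ (S.biUnion fun a => univ.image (f a)).card := by
  by_contra hcon
  push Not at hcon
  set nA := Fintype.card A with hnA
  set nB := Fintype.card B with hnB
  have hB0 : (0 : ℝ) < nB := by exact_mod_cast hB
  have hcover : (univ : Finset (A → Fin 16 → B)) ⊆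
      (Finset.Icc 2 K).biUnion fun s => (powersetCard s (univ : Finset A)).biUnion fun S =>
        (powersetCard (s - 1) (univ : Finset B)).biUnion fun T =>
          univ.filter fun f : A → Fin 16 → B => ∀ a ∈ S, ∀ j, f a j ∈ T := by
    intro f _
    obtain ⟨S, hSK, hS⟩ := hcon f
    have hS2 : 2 ≤ S.card := by
      by_contra hlt
      have hpos : 0 < S.card := by omega
      obtain ⟨a, ha⟩ := Finset.card_pos.mp hpos
      have : 0 < (S.biUnion fun a => univ.image (f a)).card :=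
        Finset.card_pos.mpr ⟨f a 0, Finset.mem_biUnion.mpr
          ⟨a, ha, Finset.mem_image.mpr ⟨0, mem_univ _, rfl⟩⟩⟩
      omega
    obtain ⟨T, hT1, hT2⟩ := Finset.exists_superset_card_eq
      (s := S.biUnion fun a => univ.image (f a)) (n := S.card - 1) (by omega) (by omega)
    refine Finset.mem_biUnion.mpr ⟨S.card, Finset.mem_Icc.mpr ⟨hS2, hSK⟩,
      Finset.mem_biUnion.mpr ⟨S, Finset.mem_powersetCard.mpr ⟨subset_univ _, rfl⟩,
      Finset.mem_biUnion.mpr ⟨T, Finset.mem_powersetCard.mpr ⟨subset_univ _, hT2⟩,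
      Finset.mem_filter.mpr ⟨mem_univ _, fun a ha j => hT1 ?_⟩⟩⟩⟩
    exact Finset.mem_biUnion.mpr ⟨a, ha, Finset.mem_image.mpr ⟨j, mem_univ _, rfl⟩⟩
  have hcard : (nB ^ 16) ^ nA ≤ ∑ s ∈ Finset.Icc 2 K,
      nA.choose s * (nB.choose (s - 1) * (((s - 1) ^ 16) ^ s * (nB ^ 16) ^ (nA - s))) := by
    have h1 : (univ : Finset (A → Fin 16 → B)).card = (nB ^ 16) ^ nA := by
      rw [Finset.card_univ, Fintype.card_fun, Fintype.card_fun, Fintype.card_fin]
    rw [← h1]
    refine (Finset.card_le_card hcover).trans ?_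
    refine Finset.card_biUnion_le.trans (Finset.sum_le_sum fun s _ => ?_)
    have h2 : nA.choose s = (powersetCard s (univ : Finset A)).card := by
      rw [Finset.card_powersetCard, Finset.card_univ]
    rw [h2, ← smul_eq_mul, ← Finset.sum_const]
    refine Finset.card_biUnion_le.trans (Finset.sum_le_sum fun S hS => ?_)
    have h3 : nB.choose (s - 1) = (powersetCard (s - 1) (univ : Finset B)).card := by
      rw [Finset.card_powersetCard, Finset.card_univ]
    rw [h3, ← smul_eq_mul, ← Finset.sum_const]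
    refine Finset.card_biUnion_le.trans (Finset.sum_le_sum fun T hT => ?_)
    rw [card_bad, (Finset.mem_powersetCard.mp hS).2, (Finset.mem_powersetCard.mp hT).2]
  have hreal : (((nB : ℝ) ^ 16) ^ nA) ≤ ∑ s ∈ Finset.Icc 2 K,
      (nA.choose s : ℝ) * ((nB.choose (s - 1) : ℝ) *
        (((((s - 1 : ℕ) : ℝ)) ^ 16) ^ s * ((nB : ℝ) ^ 16) ^ (nA - s))) := by
    exact_mod_cast hcard
  have hterm : ∀ s ∈ Finset.Icc 2 K, (nA.choose s : ℝ) * ((nB.choose (s - 1) : ℝ) *
        (((((s - 1 : ℕ) : ℝ)) ^ 16) ^ s * ((nB : ℝ) ^ 16) ^ (nA - s))) ≤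
      (1 / 4) ^ s * ((nB : ℝ) ^ 16) ^ nA := by
    intro s hs
    rw [Finset.mem_Icc] at hs
    by_cases hsA : s ≤ nA
    · have h1 := term_bd nA nB s hs.1 hB (by omega) (hx s hs.1 hs.2)
      have h2 : ((nB : ℝ) ^ 16) ^ nA = ((nB : ℝ) ^ 16) ^ s * ((nB : ℝ) ^ 16) ^ (nA - s) := by
        rw [← pow_add, Nat.add_sub_cancel' hsA]
      have h3 : (nA.choose s : ℝ) * ((nB.choose (s - 1) : ℝ) *
          (((((s - 1 : ℕ) : ℝ)) ^ 16) ^ s * ((nB : ℝ) ^ 16) ^ (nA - s))) =
          ((nA.choose s : ℝ) * (nB.choose (s - 1) : ℝ) *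
            ((((s - 1 : ℕ) : ℝ) / nB) ^ 16) ^ s) * ((nB : ℝ) ^ 16) ^ nA := by
        rw [h2, div_pow, div_pow]
        field_simp
      rw [h3]
      exact mul_le_mul_of_nonneg_right h1 (by positivity)
    · rw [Nat.choose_eq_zero_of_lt (by omega)]
      simp only [Nat.cast_zero, zero_mul]
      positivity
  have hsum := hreal.trans (Finset.sum_le_sum hterm)
  rw [← Finset.sum_mul] at hsum
  have hpos : (0 : ℝ) < ((nB : ℝ) ^ 16) ^ nA := by positivity
  have hgeo : (∑ s ∈ Finset.Icc 2 K, (1 / 4 : ℝ) ^ s) < 1 := by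
    have h1 : (∑ s ∈ Finset.Icc 2 K, (1 / 4 : ℝ) ^ s) ≤
        ∑ s ∈ Finset.range (K + 1), (1 / 4 : ℝ) ^ (s + 1) := by
      have h2 : ∑ s ∈ Finset.range (K + 1), (1 / 4 : ℝ) ^ (s + 1) =
          ∑ s ∈ Finset.Icc 1 (K + 1), (1 / 4 : ℝ) ^ s := by
        rw [Finset.sum_bij (fun s _ => s + 1)]
        · intro s hs
          rw [Finset.mem_range] at hs
          rw [Finset.mem_Icc]
          omega
        · intro a _ b _ hab
          simpa using hab
        · intro b hb
          rw [Finset.mem_Icc] at hb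
          exact ⟨b - 1, Finset.mem_range.mpr (by omega), by omega⟩
        · intro s _
          rfl
      rw [h2]
      refine Finset.sum_le_sum_of_subset_of_nonneg ?_ fun s _ _ => by positivity
      intro s hs
      rw [Finset.mem_Icc] at hs ⊢
      omega
    have h3 : ∑ s ∈ Finset.range (K + 1), (1 / 4 : ℝ) ^ (s + 1) ≤ 1 / 3 := by
      have h4 : ∑ s ∈ Finset.range (K + 1), (1 / 4 : ℝ) ^ (s + 1) =
          1 / 4 * ∑ s ∈ Finset.range (K + 1), (1 / 4 : ℝ) ^ s := by
        rw [Finset.mul_sum]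
        refine Finset.sum_congr rfl fun s _ => ?_
        rw [pow_succ]
        ring
      rw [h4, geom_sum_eq (by norm_num)]
      have : (0 : ℝ) < (1 / 4) ^ (K + 1) := by positivity
      have h5 : ((1 / 4 : ℝ) ^ (K + 1) - 1) / (1 / 4 - 1) = (1 - (1 / 4) ^ (K + 1)) * (4 / 3) := by
        ring
      rw [h5]
      linarith
    linarith
  nlinarith

end ExpanderAux

/-- NB-1. -/
theorem stExpander : StExpander := by
  intro m t hm htm
  have hm0 : (0 : ℝ) < m := by exact_mod_cast hm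
  obtain ⟨f, hf⟩ := ExpanderAux.expander (Fin (3 * m)) (Fin (2 * m)) ((3 * m + 1) / 2)
    (by rw [Fintype.card_fin]; omega) (by rw [Fintype.card_fin]; omega) (by
      intro s hs hsK
      rw [Fintype.card_fin, Fintype.card_fin]
      have h1 : (((s - 1 : ℕ) : ℝ)) ≤ 3 / 2 * m := by
        have : 2 * (s - 1) ≤ 3 * m := by omega
        have h2 : ((2 * (s - 1) : ℕ) : ℝ) ≤ ((3 * m : ℕ) : ℝ) := by exact_mod_cast this
        push_cast at h2 ⊢
        linarith
      have h2 : (((s - 1 : ℕ) : ℝ)) / ((2 * m : ℕ) : ℝ) ≤ 3 / 4 := by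
        push_cast
        rw [div_le_iff₀ (by positivity)]
        push_cast at h1
        linarith
      have h3 : ((((s - 1 : ℕ) : ℝ)) / ((2 * m : ℕ) : ℝ)) ^ 14 ≤ (3 / 4) ^ 14 :=
        pow_le_pow_left₀ (by positivity) h2 14
      have h4 : ((3 * m : ℕ) : ℝ) / ((2 * m : ℕ) : ℝ) = 3 / 2 := by
        push_cast
        field_simp
      rw [h4]
      refine (mul_le_mul_of_nonneg_left h3 (by norm_num)).trans ?_
      norm_num)
  obtain ⟨g, hg⟩ := ExpanderAux.expander (Fin (m + t) ⊕ Fin (2 * m)) (Fin (3 * m))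
    ((3 * m + 1) / 2) (by rw [Fintype.card_fin]; omega) (by rw [Fintype.card_fin]; omega) (by
      intro s hs hsK
      rw [Fintype.card_fin, Fintype.card_sum, Fintype.card_fin, Fintype.card_fin]
      have h1 : (((s - 1 : ℕ) : ℝ)) ≤ 3 / 2 * m := by
        have : 2 * (s - 1) ≤ 3 * m := by omega
        have h2 : ((2 * (s - 1) : ℕ) : ℝ) ≤ ((3 * m : ℕ) : ℝ) := by exact_mod_cast this
        push_cast at h2 ⊢
        linarith
      have h2 : (((s - 1 : ℕ) : ℝ)) / ((3 * m : ℕ) : ℝ) ≤ 1 / 2 := by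
        push_cast
        rw [div_le_iff₀ (by positivity)]
        push_cast at h1
        linarith
      have h3 : ((((s - 1 : ℕ) : ℝ)) / ((3 * m : ℕ) : ℝ)) ^ 14 ≤ (1 / 2) ^ 14 :=
        pow_le_pow_left₀ (by positivity) h2 14
      have h4 : ((m + t + 2 * m : ℕ) : ℝ) / ((3 * m : ℕ) : ℝ) ≤ 4 / 3 := by
        rw [div_le_iff₀ (by positivity)]
        have h5 : (t : ℝ) ≤ m := by exact_mod_cast htm
        push_cast
        linarith
      calc 9 * (((m + t + 2 * m : ℕ) : ℝ) / ((3 * m : ℕ) : ℝ)) *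
            ((((s - 1 : ℕ) : ℝ)) / ((3 * m : ℕ) : ℝ)) ^ 14
          ≤ 9 * (4 / 3) * (1 / 2) ^ 14 :=
            mul_le_mul (mul_le_mul_of_nonneg_left h4 (by norm_num)) h3 (by positivity)
              (by norm_num)
        _ ≤ 1 / 4 := by norm_num)
  exact ⟨f, g, hf, hg⟩

end Pool.Agent.Nibble
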