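import Pool.Agent.Lib.Nibble.Stmts

/-!
# Lower tail for random sets (module LOWER)
-/

set_option autoImplicit false

namespace Pool.Agent.Nibble

open Finset

namespace LowerAux

variable {Ω ι : Type} [Fintype Ω] [DecidableEq Ω] [Fintype ι] [DecidableEq ι] {s : ℕ} [NeZero s]

/-- put the coordinates of `S` to `0` -/
def zer (S : Finset Ω) (g : Ω → Fin s) : Ω → Fin s := fun x => if x ∈ S then 0 else g x

theorem fiber_card (S : Finset Ω) (h : Ω → Fin s) :
    (univ.filter fun g : Ω → Fin s => zer S g = h).card ≤ s ^ S.card := by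
  have h1 : (univ.filter fun g : Ω → Fin s => zer S g = h).card ≤
      (univ : Finset (S → Fin s)).card := by
    refine Finset.card_le_card_of_injOn (fun g x => g x) (fun g _ => Finset.mem_univ _) ?_
    intro g hg g' hg' hgg
    simp only [coe_filter, mem_univ, true_and, Set.mem_ofPred_eq] at hg hg'
    funext x
    by_cases hx : x ∈ S
    · exact congrFun hgg ⟨x, hx⟩
    · have e1 := congrFun hg x
      have e2 := congrFun hg' x
      simp only [zer, hx, if_false] at e1 e2
      rw [e1, e2]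
  refine h1.trans (le_of_eq ?_)
  rw [Finset.card_univ, Fintype.card_fun, Fintype.card_fin, Fintype.card_coe]

/-- the weight of one set -/
noncomputable def phi (S : Finset Ω) (g : Ω → Fin s) : ℝ := if ∀ x ∈ S, g x = 0 then 1 / 2 else 1

theorem phi_nonneg (S : Finset Ω) (g : Ω → Fin s) : 0 ≤ phi S g := by
  unfold phi
  split_ifs <;> norm_num

theorem sum_le (S : Finset Ω) (F : (Ω → Fin s) → ℝ) (hF0 : ∀ g, 0 ≤ F g)
    (hF : ∀ g, F (zer S g) = F g) :
    ∑ g, F g ≤ (s : ℝ) ^ S.card * ∑ g, (if ∀ x ∈ S, g x = 0 then F g else 0) := by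
  have h1 : ∑ g, F g = ∑ h : Ω → Fin s, ∑ g ∈ univ.filter (fun g => zer S g = h), F g :=
    (Finset.sum_fiberwise univ (zer S) F).symm
  rw [h1, Finset.mul_sum]
  refine Finset.sum_le_sum fun h _ => ?_
  have h2 : ∀ g ∈ univ.filter (fun g : Ω → Fin s => zer S g = h), F g = F h := by
    intro g hg
    rw [Finset.mem_filter] at hg
    rw [← hF g, hg.2]
  rw [Finset.sum_congr rfl h2, Finset.sum_const, nsmul_eq_mul]
  by_cases hh : ∀ x ∈ S, h x = 0
  · rw [if_pos hh]
    refine mul_le_mul_of_nonneg_right ?_ (hF0 h)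
    exact_mod_cast fiber_card S h
  · rw [if_neg hh, mul_zero]
    have h3 : univ.filter (fun g : Ω → Fin s => zer S g = h) = ∅ := by
      rw [Finset.filter_eq_empty_iff]
      intro g _ hg
      apply hh
      intro x hx
      rw [← hg]
      simp [zer, hx]
    rw [h3]
    simp

theorem prod_le (q : ℕ) (S : ι → Finset Ω) (I : Finset ι) :
    (∀ i ∈ I, (S i).card ≤ q) → (∀ i ∈ I, ∀ j ∈ I, i ≠ j → Disjoint (S i) (S j)) →
    ∑ g : Ω → Fin s, ∏ i ∈ I, phi (S i) g ≤
      (1 - (1 / (s : ℝ)) ^ q / 2) ^ I.card * (s : ℝ) ^ (Fintype.card Ω) := by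
  induction I using Finset.induction_on with
  | empty =>
    intro _ _
    simp [Fintype.card_fun]
  | insert a I ha ih =>
    intro hq hd
    have ih' := ih (fun i hi => hq i (Finset.mem_insert_of_mem hi))
      (fun i hi j hj => hd i (Finset.mem_insert_of_mem hi) j (Finset.mem_insert_of_mem hj))
    set F : (Ω → Fin s) → ℝ := fun g => ∏ i ∈ I, phi (S i) g with hFdef
    have hF0 : ∀ g, 0 ≤ F g := fun g => Finset.prod_nonneg fun i _ => phi_nonneg _ _
    have hF : ∀ g, F (zer (S a) g) = F g := by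
      intro g
      refine Finset.prod_congr rfl fun i hi => ?_
      have hdis := hd i (Finset.mem_insert_of_mem hi) a (Finset.mem_insert_self _ _)
        (fun h => ha (h ▸ hi))
      unfold phi
      have : (∀ x ∈ S i, zer (S a) g x = 0) ↔ ∀ x ∈ S i, g x = 0 := by
        refine forall₂_congr fun x hx => ?_
        have hxa : x ∉ S a := Finset.disjoint_left.1 hdis hx
        simp [zer, hxa]
      simp only [this]
    have hs1 : (1 : ℝ) ≤ s := by exact_mod_cast NeZero.one_le
    have hs0 : (0 : ℝ) < s := by linarith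
    have hA := sum_le (S a) F hF0 hF
    set A : ℝ := ∑ g, F g with hAdef
    set B : ℝ := ∑ g, (if ∀ x ∈ S a, g x = 0 then F g else 0) with hBdef
    have hA0 : 0 ≤ A := Finset.sum_nonneg fun g _ => hF0 g
    have hsum : ∑ g : Ω → Fin s, ∏ i ∈ insert a I, phi (S i) g = A - B / 2 := by
      rw [hAdef, hBdef, Finset.sum_div, ← Finset.sum_sub_distrib]
      refine Finset.sum_congr rfl fun g _ => ?_
      rw [Finset.prod_insert ha]
      unfold phi
      split_ifs with hg
      · change 1 / 2 * F g = _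
        ring
      · change 1 * F g = _
        ring
    have hB : (1 / (s : ℝ)) ^ q * A ≤ B := by
      have h1 : (1 / (s : ℝ)) ^ q ≤ (1 / (s : ℝ)) ^ (S a).card := by
        refine pow_le_pow_of_le_one (by positivity) ?_ (hq a (Finset.mem_insert_self _ _))
        rw [div_le_one hs0]
        exact hs1
      calc (1 / (s : ℝ)) ^ q * A ≤ (1 / (s : ℝ)) ^ (S a).card * A :=
            mul_le_mul_of_nonneg_right h1 hA0
        _ ≤ (1 / (s : ℝ)) ^ (S a).card * ((s : ℝ) ^ (S a).card * B) :=
            mul_le_mul_of_nonneg_left hA (by positivity)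
        _ = B := by
            rw [← mul_assoc, ← mul_pow, one_div, inv_mul_cancel₀ (ne_of_gt hs0), one_pow, one_mul]
    have hc : (0 : ℝ) ≤ 1 - (1 / (s : ℝ)) ^ q / 2 := by
      have : (1 / (s : ℝ)) ^ q ≤ 1 := by
        refine pow_le_one₀ (by positivity) ?_
        rw [div_le_one hs0]
        exact hs1
      linarith
    rw [hsum, Finset.card_insert_of_notMem ha, pow_succ]
    calc A - B / 2 ≤ (1 - (1 / (s : ℝ)) ^ q / 2) * A := by nlinarith
      _ ≤ (1 - (1 / (s : ℝ)) ^ q / 2) *
          ((1 - (1 / (s : ℝ)) ^ q / 2) ^ I.card * (s : ℝ) ^ (Fintype.card Ω)) :=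
          mul_le_mul_of_nonneg_left ih' hc
      _ = _ := by ring

end LowerAux

open LowerAux

theorem stLower : StLower := by
  intro Ω ι _ _ _ _ s q t _ I S hq hd
  have h1 : ∀ g : Ω → Fin s, ∏ i ∈ I, phi (S i) g =
      (1 / 2 : ℝ) ^ (I.filter fun i => ∀ x ∈ S i, g x = 0).card := by
    intro g
    unfold phi
    rw [Finset.prod_ite]
    simp
  have h2 : (((univ.filter fun g : Ω → Fin s =>
        (I.filter fun i => ∀ x ∈ S i, g x = 0).card < t).card : ℝ)) ≤
      ∑ g : Ω → Fin s, 2 ^ t * ∏ i ∈ I, phi (S i) g := by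
    rw [Finset.card_eq_sum_ones, Nat.cast_sum]
    refine (Finset.sum_le_sum (g := fun g => 2 ^ t * ∏ i ∈ I, phi (S i) g) fun g hg => ?_).trans
      (Finset.sum_le_sum_of_subset_of_nonneg (Finset.subset_univ _) fun g _ _ => ?_)
    · rw [Finset.mem_filter] at hg
      rw [h1, Nat.cast_one, one_div, inv_pow]
      have h3 : (2 : ℝ) ^ (I.filter fun i => ∀ x ∈ S i, g x = 0).card ≤ 2 ^ t :=
        pow_le_pow_right₀ (by norm_num) hg.2.le
      rw [← div_eq_mul_inv, le_div_iff₀ (by positivity), one_mul]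
      exact h3
    · exact mul_nonneg (by positivity) (Finset.prod_nonneg fun i _ => phi_nonneg _ _)
  refine h2.trans ?_
  rw [← Finset.mul_sum, mul_assoc]
  exact mul_le_mul_of_nonneg_left (prod_le q S I hq hd) (by positivity)

end Pool.Agent.Nibble
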