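import Pool.Agent.Lib.Nibble.Stmts

/-!
Module NB-2: robustly matchable bipartite graphs from expanders (Hall's theorem).
-/

set_option autoImplicit false

namespace Pool.Agent.Nibble

open Finset

namespace TemplateAux

variable {m t : ℕ} (f : Fin (3 * m) → Fin 16 → Fin (2 * m))
  (g : Fin (m + t) ⊕ Fin (2 * m) → Fin 16 → Fin (3 * m))

/-- the neighbours of a slot -/
def RR (s : Fin (3 * m)) : Finset (Fin (m + t) ⊕ Fin (2 * m)) :=
  (univ.image (f s)).image Sum.inr ∪ univ.filter (fun x => s ∈ univ.image (g x))

theorem card_image16 {α : Type} [DecidableEq α] (h : Fin 16 → α) : (univ.image h).card ≤ 16 := by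
  have := card_image_le (s := (univ : Finset (Fin 16))) (f := h)
  simpa using this

theorem card_RR (ht : t ≤ m) : ∑ s, (RR f g s).card ≤ 112 * m := by
  have h1 : ∀ s, (RR f g s).card ≤ 16 + (univ.filter (fun x => s ∈ univ.image (g x))).card := by
    intro s
    refine (card_union_le _ _).trans (Nat.add_le_add_right ?_ _)
    exact card_image_le.trans (card_image16 _)
  have h2 : ∑ s, (univ.filter (fun x => s ∈ univ.image (g x))).card =
      ∑ x, (univ.image (g x)).card := by
    simp only [card_filter]
    rw [sum_comm]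
    refine sum_congr rfl fun x _ => ?_
    rw [sum_ite_mem, univ_inter, card_eq_sum_ones]
  have h3 : ∑ x, (univ.image (g x)).card ≤ 16 * (m + t + 2 * m) := by
    calc ∑ x, (univ.image (g x)).card ≤ ∑ _x : Fin (m + t) ⊕ Fin (2 * m), 16 :=
          sum_le_sum fun x _ => card_image16 _
      _ = 16 * (m + t + 2 * m) := by
          rw [sum_const, smul_eq_mul, mul_comm, card_univ, Fintype.card_sum, Fintype.card_fin,
            Fintype.card_fin]
  calc ∑ s, (RR f g s).card ≤ ∑ s : Fin (3 * m),
        (16 + (univ.filter (fun x => s ∈ univ.image (g x))).card) := sum_le_sum fun s _ => h1 s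
    _ = 3 * m * 16 + ∑ x, (univ.image (g x)).card := by
        rw [sum_add_distrib, sum_const, smul_eq_mul, card_univ, Fintype.card_fin, h2]
    _ ≤ 112 * m := by omega

theorem hall (hf : ∀ S : Finset (Fin (3 * m)), S.card ≤ (3 * m + 1) / 2 →
      S.card ≤ (S.biUnion fun s => univ.image (f s)).card)
    (hg : ∀ T : Finset (Fin (m + t) ⊕ Fin (2 * m)), T.card ≤ (3 * m + 1) / 2 →
      T.card ≤ (T.biUnion fun x => univ.image (g x)).card)
    (Y' : Finset (Fin (m + t))) (hY : Y'.card = m) (S : Finset (Fin (3 * m))) :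
    S.card ≤ (S.biUnion fun s => RR f g s ∩ Y'.disjSum univ).card := by
  set I' : Finset (Fin (m + t) ⊕ Fin (2 * m)) := Y'.disjSum univ with hI
  have hIc : I'.card = 3 * m := by
    rw [hI, card_disjSum, hY, card_univ, Fintype.card_fin]
    ring
  set N := S.biUnion fun s => RR f g s ∩ I' with hN
  by_cases hS : S.card ≤ (3 * m + 1) / 2
  · refine (hf S hS).trans ?_
    rw [← card_image_of_injective (S.biUnion fun s => univ.image (f s))
      (Sum.inr_injective (α := Fin (m + t)))]
    refine card_le_card fun x hx => ?_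
    rw [mem_image] at hx
    obtain ⟨y, hy, rfl⟩ := hx
    rw [mem_biUnion] at hy
    obtain ⟨s, hs, hy⟩ := hy
    rw [hN, mem_biUnion]
    refine ⟨s, hs, mem_inter.mpr ⟨mem_union_left _ (mem_image_of_mem _ hy), ?_⟩⟩
    rw [hI, inr_mem_disjSum]
    exact mem_univ _
  · by_contra hlt
    rw [not_le] at hlt hS
    have hSc : S.card ≤ 3 * m := by
      have := card_le_univ S
      rwa [Fintype.card_fin] at this
    have hNI : N ⊆ I' := by
      intro x hx
      rw [hN, mem_biUnion] at hx
      obtain ⟨s, -, hx⟩ := hx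
      exact (mem_inter.mp hx).2
    have hTc : (I' \ N).card = 3 * m - N.card := by rw [card_sdiff_of_subset hNI, hIc]
    have key : ∀ T' ⊆ I' \ N, (T'.biUnion fun x => univ.image (g x)).card ≤ 3 * m - S.card := by
      intro T' hT'
      have h1 : (T'.biUnion fun x => univ.image (g x)) ⊆ univ \ S := by
        intro s hs
        rw [mem_biUnion] at hs
        obtain ⟨x, hx, hs⟩ := hs
        rw [mem_sdiff]
        refine ⟨mem_univ _, fun hsS => ?_⟩
        have h2 := hT' hx
        rw [mem_sdiff] at h2
        apply h2.2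
        rw [hN, mem_biUnion]
        refine ⟨s, hsS, mem_inter.mpr ⟨mem_union_right _ ?_, h2.1⟩⟩
        rw [mem_filter]
        exact ⟨mem_univ _, hs⟩
      have h2 := card_le_card h1
      rwa [card_sdiff_of_subset (subset_univ S), card_univ, Fintype.card_fin] at h2
    by_cases hT : (I' \ N).card ≤ (3 * m + 1) / 2
    · have h1 := hg _ hT
      have h2 := key _ (Subset.refl _)
      omega
    · rw [not_le] at hT
      obtain ⟨T', hT', hc⟩ := exists_subset_card_eq hT.le
      have h1 := hg T' hc.le
      have h2 := key T' hT'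
      omega

end TemplateAux

open TemplateAux in
/-- NB-2 -/
theorem stTemplate (h : StExpander) : StTemplate := by
  refine ⟨112, fun m t ht => ?_⟩
  rcases Nat.eq_zero_or_pos m with rfl | hm
  · exact ⟨fun _ => ∅, by simp, fun Y' _ => ⟨fun s => absurd s.2 (by omega),
      fun s => absurd s.2 (by omega), fun s => absurd s.2 (by omega),
      fun s => absurd s.2 (by omega)⟩⟩
  · obtain ⟨f, g, hf, hg⟩ := h m t hm ht
    refine ⟨RR f g, card_RR f g ht, fun Y' hY => ?_⟩
    obtain ⟨q, hq, hq'⟩ := (all_card_le_biUnion_card_iff_exists_injective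
      (fun s => RR f g s ∩ Y'.disjSum univ)).mp (hall f g hf hg Y' hY)
    refine ⟨q, hq, fun s => (mem_inter.mp (hq' s)).1, fun s y hy => ?_⟩
    have h1 := (mem_inter.mp (hq' s)).2
    rw [hy, inl_mem_disjSum] at h1
    exact h1

end Pool.Agent.Nibble
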