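import Mathlib

/-!
General statements (no reference to a particular problem):
* `StNibble`  : weighted Roedl nibble / Pippenger theorem.
* `StTemplate`: robustly matchable bipartite graphs (Montgomery).
* `StContract`: exact fractional perfect matching from a nearly regular weighting.
-/

set_option autoImplicit false

namespace Pool.Agent.Nibble

open Finset

/-- Weighted nibble: an `r`-uniform weighted hypergraph in which every vertex has weighted degree
`1 ± δ` and every pair of vertices has weighted codegree at most `δ` has a matching that covers all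
but a `γ`-fraction of the vertices. -/
def StNibble : Prop :=
  ∀ r : ℕ, 2 ≤ r → ∀ γ : ℝ, 0 < γ → ∃ δ : ℝ, 0 < δ ∧
    ∀ (V ι : Type) [Fintype V] [DecidableEq V] [Fintype ι] [DecidableEq ι]
      (e : ι → Finset V) (w : ι → ℝ),
      (∀ i, 0 ≤ w i) → (∀ i, (e i).card = r) →
      (∀ v, |(∑ i, if v ∈ e i then w i else 0) - 1| ≤ δ) →
      (∀ u v, u ≠ v → (∑ i, if u ∈ e i ∧ v ∈ e i then w i else 0) ≤ δ) →
      ∃ M : Finset ι, (∀ i ∈ M, ∀ j ∈ M, i ≠ j → Disjoint (e i) (e j)) ∧
        (((univ.filter fun v => ∀ i ∈ M, v ∉ e i).card : ℝ) ≤ γ * (Fintype.card V : ℝ))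

/-- Robustly matchable bipartite graphs with linearly many edges: slots `Fin (3 m)`, flexible items
`Fin (m + t)`, fixed items `Fin (2 m)`. For every set `Y'` of exactly `m` flexible items there is a
perfect matching of the slots with `Y' ∪` fixed items. -/
def StTemplate : Prop :=
  ∃ C : ℕ, ∀ m t : ℕ, t ≤ m →
    ∃ R : Fin (3 * m) → Finset (Fin (m + t) ⊕ Fin (2 * m)),
      (∑ s, (R s).card ≤ C * m) ∧
      ∀ Y' : Finset (Fin (m + t)), Y'.card = m →
        ∃ g : Fin (3 * m) → Fin (m + t) ⊕ Fin (2 * m),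
          Function.Injective g ∧ (∀ s, g s ∈ R s) ∧ ∀ s y, g s = Sum.inl y → y ∈ Y'

/-- Lower tail for random sets: a random function `g : Ω → Fin s`; `I` indexes disjoint sets `S i` of
size at most `q`. The number of `g` for which fewer than `t` of the sets `S i` are contained in
`g ⁻¹ {0}` is at most `2^t (1 - s^(-q)/2)^|I|` times the number of all functions. -/
def StLower : Prop :=
  ∀ (Ω ι : Type) [Fintype Ω] [DecidableEq Ω] [Fintype ι] [DecidableEq ι] (s q t : ℕ) [NeZero s]
    (I : Finset ι) (S : ι → Finset Ω),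
    (∀ i ∈ I, (S i).card ≤ q) → (∀ i ∈ I, ∀ j ∈ I, i ≠ j → Disjoint (S i) (S j)) →
    (((univ.filter fun g : Ω → Fin s =>
        (I.filter fun i => ∀ x ∈ S i, g x = 0).card < t).card : ℝ)
      ≤ 2 ^ t * (1 - (1 / (s : ℝ)) ^ q / 2) ^ I.card * (s : ℝ) ^ (Fintype.card Ω))

/-- Contraction lemma. `N e v` = multiplicity of the vertex `v` in the hyperedge `e`, `τ` = type of a
vertex; every hyperedge (of positive weight) contains exactly `c t` vertices of type `t`, and there
are `c t * N0` vertices of type `t`. If the weighting `w0` is nearly regular and the (weighted)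
codegree operator is close to the averaging operator on functions with mean zero on every type, then
there is an exactly regular weighting `w ≤ 2 w0`. -/
def StContract : Prop :=
  ∀ (V E : Type) [Fintype V] [DecidableEq V] [Fintype E]
    (τ : V → Fin 3) (N : E → V → ℝ) (w0 : E → ℝ) (c : Fin 3 → ℝ) (N0 : ℝ) (s : Fin 3 → ℝ) (b0 : ℝ),
    0 < N0 → (∀ t, 1 ≤ c t) → (∀ t, 0 < s t) → 0 ≤ b0 →
    (∀ e v, 0 ≤ N e v) → (∀ e, 0 ≤ w0 e) →
    (∀ e, w0 e ≠ 0 → ∀ t, (∑ v ∈ univ.filter (fun v => τ v = t), N e v) = c t) →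
    (∀ t, ((univ.filter fun v => τ v = t).card : ℝ) = c t * N0) →
    (∀ v, |(∑ e, w0 e * N e v) - 1| ≤ b0 * s (τ v)) →
    (∀ β : V → ℝ, (∀ v, |β v| ≤ s (τ v)) →
      (∀ t, (∑ v ∈ univ.filter (fun v => τ v = t), β v) = 0) →
      ∀ v, |(∑ e, w0 e * N e v * ∑ u, N e u * β u) - β v| ≤ s (τ v) / 4) →
    32 * b0 * (∑ t, c t * s t) ≤ 1 →
    ∃ w : E → ℝ, (∀ e, 0 ≤ w e ∧ w e ≤ 2 * w0 e) ∧ ∀ v, (∑ e, w e * N e v) = 1

/-! ### sub-modules -/

/-- Expanders (random functions with `16` values); for all `m ≥ 1`. -/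
def StExpander : Prop :=
  ∀ m t : ℕ, 1 ≤ m → t ≤ m →
    ∃ (f : Fin (3 * m) → Fin 16 → Fin (2 * m))
      (g : Fin (m + t) ⊕ Fin (2 * m) → Fin 16 → Fin (3 * m)),
      (∀ S : Finset (Fin (3 * m)), S.card ≤ (3 * m + 1) / 2 →
        S.card ≤ (S.biUnion fun s => univ.image (f s)).card) ∧
      (∀ T : Finset (Fin (m + t) ⊕ Fin (2 * m)), T.card ≤ (3 * m + 1) / 2 →
        T.card ≤ (T.biUnion fun x => univ.image (g x)).card)

section bite

variable {V ι : Type} [Fintype V] [DecidableEq V] [Fintype ι] [DecidableEq ι]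

/-- weighted degree -/
noncomputable def deg (e : ι → Finset V) (w : ι → ℝ) (v : V) : ℝ := ∑ i, if v ∈ e i then w i else 0

/-- weighted codegree -/
noncomputable def cod (e : ι → Finset V) (w : ι → ℝ) (u v : V) : ℝ :=
  ∑ i, if u ∈ e i ∧ v ∈ e i then w i else 0

/-- square deviation of the degrees from `1` -/
noncomputable def dev (e : ι → Finset V) (w : ι → ℝ) : ℝ := ∑ v, (deg e w v - 1) ^ 2

/-- vertices not covered by the selected edges -/
def surv (e : ι → Finset V) (S : Finset ι) : Finset V := univ.filter fun v => ∀ i ∈ S, v ∉ e i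

/-- selected edges that meet no other selected edge -/
def isol (e : ι → Finset V) (S : Finset ι) : Finset ι :=
  S.filter fun i => ∀ j ∈ S, j ≠ i → Disjoint (e i) (e j)

/-- vertices covered by the selected edges, but not by an isolated one -/
def waste (e : ι → Finset V) (S : Finset ι) : Finset V :=
  univ.filter fun v => (∃ i ∈ S, v ∈ e i) ∧ ∀ i ∈ isol e S, v ∉ e i

/-- square deviation after one bite: weights multiplied by `κ`, edges inside the surviving set -/
noncomputable def dev' (e : ι → Finset V) (w : ι → ℝ) (κ : ℝ) (S : Finset ι) : ℝ :=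
  ∑ v ∈ surv e S, (κ * (∑ i, if v ∈ e i ∧ e i ⊆ surv e S then w i else 0) - 1) ^ 2

end bite

/-- One bite. -/
def StBite : Prop :=
  ∀ (r : ℕ) (ε D : ℝ), 2 ≤ r → 0 < ε → ε ≤ 1 / 8 → 1 ≤ D →
    ∃ K : ℝ, 0 ≤ K ∧ ∀ η : ℝ, 0 < η → ∃ δ : ℝ, 0 < δ ∧
      ∀ (V ι : Type) [Fintype V] [DecidableEq V] [Fintype ι] [DecidableEq ι]
        (e : ι → Finset V) (w : ι → ℝ),
        (∀ i, 0 ≤ w i) → (∀ i, (e i).card = r) → (∀ v, deg e w v ≤ D) →
        (∀ u v, u ≠ v → cod e w u v ≤ δ) →
        ∀ a b : ℝ, 0 ≤ a → 0 ≤ b → ∃ S : Finset ι,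
          ((waste e S).card : ℝ) + a * ((surv e S).card : ℝ)
              + b * dev' e w (Real.exp (ε * (r - 1))) S
            ≤ 2 * r * ε ^ 2 * (Fintype.card V + dev e w)
              + a * ((1 - 3 * ε / 4) * Fintype.card V + 3 * ε * dev e w)
              + b * (K * dev e w + η * Fintype.card V)

end Pool.Agent.Nibble
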