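import Pool.Agent.Lib.Nibble.Stmts

/-!
The weighted nibble from the bite lemma (module NB-5).
-/

set_option autoImplicit false

namespace Pool.Agent.Nibble

open Finset

/-- Nearly linear weighted hypergraphs of weighted degree at most `D` have matchings that leave at
most `(α + η) |V| + b dev` vertices uncovered. -/
def Cl (r : ℕ) (α D b : ℝ) : Prop :=
  ∀ η : ℝ, 0 < η → ∃ δ : ℝ, 0 < δ ∧
    ∀ (V ι : Type) [Fintype V] [DecidableEq V] [Fintype ι] [DecidableEq ι]
      (e : ι → Finset V) (w : ι → ℝ),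
      (∀ i, 0 ≤ w i) → (∀ i, (e i).card = r) → (∀ v, deg e w v ≤ D) →
      (∀ u v, u ≠ v → cod e w u v ≤ δ) →
      ∃ M : Finset ι, (∀ i ∈ M, ∀ j ∈ M, i ≠ j → Disjoint (e i) (e j)) ∧
        ((surv e M).card : ℝ) ≤ (α + η) * (Fintype.card V : ℝ) + b * dev e w

theorem dev_nonneg {V ι : Type} [Fintype V] [DecidableEq V] [Fintype ι] [DecidableEq ι]
    (e : ι → Finset V) (w : ι → ℝ) : 0 ≤ dev e w :=
  Finset.sum_nonneg fun _ _ => sq_nonneg _

theorem cl_zero (r : ℕ) (D : ℝ) : Cl r 1 D 0 := by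
  intro η hη
  refine ⟨1, one_pos, ?_⟩
  intro V ι _ _ _ _ e w _ _ _ _
  refine ⟨∅, by simp, ?_⟩
  have h1 : ((surv e ∅).card : ℝ) = Fintype.card V := by
    simp [surv]
  rw [h1]
  have h2 : (0 : ℝ) ≤ Fintype.card V := Nat.cast_nonneg _
  nlinarith

section sub

variable {V ι : Type} [Fintype V] [DecidableEq V] [Fintype ι] [DecidableEq ι]

/-- edges inside the surviving set -/
abbrev SubI (e : ι → Finset V) (S : Finset ι) : Type := {i : ι // e i ⊆ surv e S}

/-- surviving vertices -/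
abbrev SubV (e : ι → Finset V) (S : Finset ι) : Type := {v : V // v ∈ surv e S}

/-- the sub-hypergraph -/
def subE (e : ι → Finset V) (S : Finset ι) (i : SubI e S) : Finset (SubV e S) :=
  (e i.1).subtype (fun v => v ∈ surv e S)

theorem mem_subE (e : ι → Finset V) (S : Finset ι) (i : SubI e S) (v : SubV e S) :
    v ∈ subE e S i ↔ v.1 ∈ e i.1 := by
  unfold subE
  rw [Finset.mem_subtype]

theorem card_subE (e : ι → Finset V) (S : Finset ι) (i : SubI e S) :
    (subE e S i).card = (e i.1).card := by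
  unfold subE
  rw [Finset.card_subtype, Finset.filter_true_of_mem fun v hv => i.2 hv]

theorem deg_sub (e : ι → Finset V) (w : ι → ℝ) (κ : ℝ) (S : Finset ι) (v : SubV e S) :
    deg (subE e S) (fun i => κ * w i.1) v =
      κ * ∑ i, if v.1 ∈ e i ∧ e i ⊆ surv e S then w i else 0 := by
  unfold deg
  simp only [mem_subE]
  rw [← Finset.sum_subtype (univ.filter fun i => e i ⊆ surv e S) (by simp)
    (fun i => if v.1 ∈ e i then κ * w i else 0), Finset.sum_filter, Finset.mul_sum]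
  refine Finset.sum_congr rfl fun i _ => ?_
  by_cases h1 : e i ⊆ surv e S <;> by_cases h2 : v.1 ∈ e i <;> simp [h1, h2]

theorem cod_sub (e : ι → Finset V) (w : ι → ℝ) (κ : ℝ) (S : Finset ι) (u v : SubV e S) :
    cod (subE e S) (fun i => κ * w i.1) u v =
      κ * ∑ i, if (u.1 ∈ e i ∧ v.1 ∈ e i) ∧ e i ⊆ surv e S then w i else 0 := by
  unfold cod
  simp only [mem_subE]
  rw [← Finset.sum_subtype (univ.filter fun i => e i ⊆ surv e S) (by simp)
    (fun i => if u.1 ∈ e i ∧ v.1 ∈ e i then κ * w i else 0), Finset.sum_filter, Finset.mul_sum]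
  refine Finset.sum_congr rfl fun i _ => ?_
  by_cases h1 : e i ⊆ surv e S <;> by_cases h2 : u.1 ∈ e i ∧ v.1 ∈ e i <;> simp [h1, h2]

theorem dev_sub (e : ι → Finset V) (w : ι → ℝ) (κ : ℝ) (S : Finset ι) :
    dev (subE e S) (fun i => κ * w i.1) = dev' e w κ S := by
  unfold dev dev'
  simp only [deg_sub]
  rw [← Finset.sum_subtype (surv e S) (by simp)
    (fun v => (κ * (∑ i, if v ∈ e i ∧ e i ⊆ surv e S then w i else 0) - 1) ^ 2)]

theorem card_subV (e : ι → Finset V) (S : Finset ι) :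
    Fintype.card (SubV e S) = (surv e S).card := by
  simp

theorem join (e : ι → Finset V) (S : Finset ι) (M : Finset (SubI e S))
    (hM : ∀ i ∈ M, ∀ j ∈ M, i ≠ j → Disjoint (subE e S i) (subE e S j)) :
    ∃ N : Finset ι, (∀ i ∈ N, ∀ j ∈ N, i ≠ j → Disjoint (e i) (e j)) ∧
      (surv e N).card ≤ (waste e S).card + (surv (subE e S) M).card := by
  classical
  set M' : Finset ι := M.map (Function.Embedding.subtype _) with hM'
  have hmem : ∀ j, j ∈ M' ↔ ∃ h : e j ⊆ surv e S, (⟨j, h⟩ : SubI e S) ∈ M := by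
    intro j
    simp [hM']
  have hcross : ∀ i ∈ isol e S, ∀ j ∈ M', Disjoint (e i) (e j) := by
    intro i hi j hj
    obtain ⟨h, -⟩ := (hmem j).1 hj
    rw [Finset.disjoint_left]
    intro v hv hv'
    have h1 := h hv'
    exact (Finset.mem_filter.1 h1).2 i (Finset.mem_filter.1 hi).1 hv
  refine ⟨isol e S ∪ M', ?_, ?_⟩
  · intro i hi j hj hij
    rcases Finset.mem_union.1 hi with hi | hi <;> rcases Finset.mem_union.1 hj with hj | hj
    · exact (Finset.mem_filter.1 hi).2 j (Finset.mem_filter.1 hj).1 (Ne.symm hij)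
    · exact hcross i hi j hj
    · exact (hcross j hj i hi).symm
    · obtain ⟨hi1, hi2⟩ := (hmem i).1 hi
      obtain ⟨hj1, hj2⟩ := (hmem j).1 hj
      have h1 := hM _ hi2 _ hj2 (fun h => hij (congrArg Subtype.val h))
      rw [Finset.disjoint_left]
      intro v hv hv'
      exact Finset.disjoint_left.1 h1 ((mem_subE e S ⟨i, hi1⟩ ⟨v, hi1 hv⟩).2 hv)
        ((mem_subE e S ⟨j, hj1⟩ ⟨v, hi1 hv⟩).2 hv')
  · have hsub : surv e (isol e S ∪ M') ⊆
        waste e S ∪ (surv (subE e S) M).map (Function.Embedding.subtype _) := by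
      intro v hv
      have hv' := (Finset.mem_filter.1 hv).2
      by_cases hs : v ∈ surv e S
      · refine Finset.mem_union_right _ (Finset.mem_map.2 ⟨⟨v, hs⟩, ?_, rfl⟩)
        refine Finset.mem_filter.2 ⟨Finset.mem_univ _, ?_⟩
        intro i hi hvi
        rw [mem_subE] at hvi
        exact hv' i.1 (Finset.mem_union_right _ ((hmem i.1).2 ⟨i.2, hi⟩)) hvi
      · refine Finset.mem_union_left _ (Finset.mem_filter.2 ⟨Finset.mem_univ _, ?_, ?_⟩)
        · by_contra hcon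
          push Not at hcon
          exact hs (Finset.mem_filter.2 ⟨Finset.mem_univ _, hcon⟩)
        · intro i hi
          exact hv' i (Finset.mem_union_left _ hi)
    refine (Finset.card_le_card hsub).trans ((Finset.card_union_le _ _).trans ?_)
    rw [Finset.card_map]

end sub

theorem cl_step (h : StBite) {r : ℕ} (hr : 2 ≤ r) {ε α : ℝ} (hε : 0 < ε) (hε8 : ε ≤ 1 / 8)
    (hα : 0 ≤ α) (ih : ∀ D : ℝ, 1 ≤ D → ∃ b, 0 ≤ b ∧ Cl r α D b) (D : ℝ) (hD : 1 ≤ D) :
    ∃ b, 0 ≤ b ∧ Cl r ((1 - 3 * ε / 4) * α + 2 * r * ε ^ 2) D b := by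
  obtain ⟨K, hK, hB⟩ := h r ε D hr hε hε8 hD
  set κ : ℝ := Real.exp (ε * (r - 1)) with hκ
  have hr1 : (1 : ℝ) ≤ (r : ℝ) - 1 := by
    have : (2 : ℝ) ≤ r := by exact_mod_cast hr
    linarith
  have hκ1 : 1 ≤ κ := Real.one_le_exp (by nlinarith)
  have hκ0 : 0 < κ := Real.exp_pos _
  obtain ⟨b, hb, hcl⟩ := ih (κ * D) (by nlinarith)
  refine ⟨2 * r * ε ^ 2 + 3 * ε * (α + 1) + b * K, by positivity, ?_⟩
  intro η hη
  set η₁ : ℝ := min (η / 2) 1 with hη₁
  have hη₁0 : 0 < η₁ := lt_min (by linarith) one_pos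
  have hη₁1 : η₁ ≤ 1 := min_le_right _ _
  have hη₁2 : η₁ ≤ η / 2 := min_le_left _ _
  obtain ⟨δ₁, hδ₁, hcl1⟩ := hcl η₁ hη₁0
  set η₂ : ℝ := η / 2 / (b + 1) with hη₂
  have hη₂0 : 0 < η₂ := by positivity
  obtain ⟨δ₂, hδ₂, hB1⟩ := hB η₂ hη₂0
  refine ⟨min δ₂ (δ₁ / κ), lt_min hδ₂ (by positivity), ?_⟩
  intro V ι _ _ _ _ e w hw hc hdeg hcod
  obtain ⟨S, hS⟩ := hB1 V ι e w hw hc hdeg
    (fun u v huv => (hcod u v huv).trans (min_le_left _ _)) (α + η₁) b (by linarith) hb
  have hA : ∀ v : SubV e S, deg (subE e S) (fun i => κ * w i.1) v ≤ κ * D := by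
    intro v
    rw [deg_sub]
    refine mul_le_mul_of_nonneg_left (le_trans ?_ (hdeg v.1)) hκ0.le
    refine Finset.sum_le_sum fun i _ => ?_
    by_cases h1 : v.1 ∈ e i <;> by_cases h2 : e i ⊆ surv e S <;> simp [h1, h2, hw i]
  have hC : ∀ u v : SubV e S, u ≠ v → cod (subE e S) (fun i => κ * w i.1) u v ≤ δ₁ := by
    intro u v huv
    rw [cod_sub]
    have h1 : ∑ i, (if (u.1 ∈ e i ∧ v.1 ∈ e i) ∧ e i ⊆ surv e S then w i else 0) ≤
        δ₁ / κ := by
      refine le_trans ?_ ((hcod u.1 v.1 (fun h => huv (Subtype.ext h))).trans (min_le_right _ _))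
      refine Finset.sum_le_sum fun i _ => ?_
      by_cases h1 : u.1 ∈ e i ∧ v.1 ∈ e i <;> by_cases h2 : e i ⊆ surv e S <;> simp [h1, h2, hw i]
    calc _ ≤ κ * (δ₁ / κ) := mul_le_mul_of_nonneg_left h1 hκ0.le
      _ = δ₁ := by field_simp
  obtain ⟨M, hM1, hM2⟩ := hcl1 (SubV e S) (SubI e S) (subE e S) (fun i => κ * w i.1)
    (fun i => mul_nonneg hκ0.le (hw _)) (fun i => by rw [card_subE, hc]) hA hC
  · obtain ⟨N, hN1, hN2⟩ := join e S M hM1
    refine ⟨N, hN1, ?_⟩
    rw [dev_sub, card_subV] at hM2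
    have h1 : ((surv e N).card : ℝ) ≤ (waste e S).card + (surv (subE e S) M).card := by
      exact_mod_cast hN2
    have hdev := dev_nonneg e w
    have hV : (0 : ℝ) ≤ Fintype.card V := Nat.cast_nonneg _
    have h2 : b * η₂ ≤ η / 2 := by
      rw [hη₂, mul_div_assoc', div_le_iff₀ (by linarith)]
      nlinarith
    have h3 : (α + η₁) * (1 - 3 * ε / 4) ≤ (1 - 3 * ε / 4) * α + η / 2 := by
      nlinarith
    calc ((surv e N).card : ℝ) ≤ (waste e S).card + (surv (subE e S) M).card := h1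
      _ ≤ (waste e S).card + ((α + η₁) * (surv e S).card + b * dev' e w κ S) := by linarith
      _ ≤ 2 * r * ε ^ 2 * (Fintype.card V + dev e w)
              + (α + η₁) * ((1 - 3 * ε / 4) * Fintype.card V + 3 * ε * dev e w)
              + b * (K * dev e w + η₂ * Fintype.card V) := by linarith
      _ = (2 * r * ε ^ 2 + (α + η₁) * (1 - 3 * ε / 4) + b * η₂) * Fintype.card V
            + (2 * r * ε ^ 2 + 3 * ε * (α + η₁) + b * K) * dev e w := by ring
      _ ≤ _ := by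
          refine add_le_add (mul_le_mul_of_nonneg_right (by linarith) hV)
            (mul_le_mul_of_nonneg_right ?_ hdev)
          nlinarith

/-- the fractions of uncovered vertices -/
noncomputable def al (r : ℕ) (ε : ℝ) : ℕ → ℝ
  | 0 => 1
  | I + 1 => (1 - 3 * ε / 4) * al r ε I + 2 * r * ε ^ 2

theorem al_bd {r : ℕ} {ε : ℝ} (hε : 0 < ε) (hε8 : ε ≤ 1 / 8) (I : ℕ) :
    0 ≤ al r ε I ∧ al r ε I ≤ (1 - 3 * ε / 4) ^ I + 8 / 3 * r * ε := by
  have hr : (0 : ℝ) ≤ r := Nat.cast_nonneg _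
  induction I with
  | zero =>
    simp only [al, pow_zero]
    exact ⟨zero_le_one, by nlinarith [mul_nonneg hr hε.le]⟩
  | succ I ih =>
    obtain ⟨h1, h2⟩ := ih
    have h3 : 0 ≤ 1 - 3 * ε / 4 := by linarith
    simp only [al]
    refine ⟨by positivity, ?_⟩
    have h4 := mul_le_mul_of_nonneg_left h2 h3
    calc _ ≤ (1 - 3 * ε / 4) * ((1 - 3 * ε / 4) ^ I + 8 / 3 * r * ε) + 2 * r * ε ^ 2 := by
          linarith
      _ = _ := by ring

theorem cl_all (h : StBite) {r : ℕ} (hr : 2 ≤ r) {ε : ℝ} (hε : 0 < ε) (hε8 : ε ≤ 1 / 8) (I : ℕ) :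
    ∀ D : ℝ, 1 ≤ D → ∃ b, 0 ≤ b ∧ Cl r (al r ε I) D b := by
  induction I with
  | zero => exact fun D _ => ⟨0, le_rfl, cl_zero r D⟩
  | succ I ih =>
    intro D hD
    exact cl_step h hr hε hε8 (al_bd hε hε8 I).1 ih D hD

/-- (NB-5) the nibble -/
theorem stNibble (h : StBite) : StNibble := by
  intro r hr γ₀ hγ₀
  set γ : ℝ := min γ₀ 1 with hγ
  have hγ0 : 0 < γ := lt_min hγ₀ one_pos
  have hγ1 : γ ≤ 1 := min_le_right _ _
  have hr2 : (2 : ℝ) ≤ r := by exact_mod_cast hr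
  have hr0 : (0 : ℝ) < r := by linarith
  set ε : ℝ := γ / (32 * r) with hε
  have hε0 : 0 < ε := by positivity
  have hεr : r * ε = γ / 32 := by
    rw [hε]
    field_simp
  have hε8 : ε ≤ 1 / 8 := by nlinarith
  obtain ⟨I, hI⟩ := exists_pow_lt_of_lt_one (show 0 < γ / 4 by positivity)
    (show 1 - 3 * ε / 4 < 1 by linarith)
  obtain ⟨b, hb, hcl⟩ := cl_all h hr hε0 hε8 I 2 (by norm_num)
  obtain ⟨δ, hδ, hM⟩ := hcl (γ / 8) (by positivity)
  refine ⟨min δ (min 1 (γ / 8 / (b + 1))), lt_min hδ (lt_min one_pos (by positivity)), ?_⟩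
  intro V ι _ _ _ _ e w hw hc hdeg hcod
  have hd1 : ∀ v, |deg e w v - 1| ≤ min 1 (γ / 8 / (b + 1)) :=
    fun v => (hdeg v).trans (min_le_right _ _)
  obtain ⟨M, hM1, hM2⟩ := hM V ι e w hw hc
    (fun v => by
      have := (abs_le.1 ((hd1 v).trans (min_le_left _ _))).2
      linarith)
    (fun u v huv => (hcod u v huv).trans (min_le_left _ _))
  refine ⟨M, hM1, ?_⟩
  have hV : (0 : ℝ) ≤ Fintype.card V := Nat.cast_nonneg _
  have hdev : dev e w ≤ γ / 8 / (b + 1) * Fintype.card V := by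
    unfold dev
    calc ∑ v, (deg e w v - 1) ^ 2 ≤ ∑ _v : V, γ / 8 / (b + 1) := by
          refine Finset.sum_le_sum fun v _ => ?_
          have h1 := (hd1 v).trans (min_le_left _ _)
          have h2 := (hd1 v).trans (min_le_right _ _)
          rw [← sq_abs]
          nlinarith [abs_nonneg (deg e w v - 1)]
      _ = _ := by
          rw [Finset.sum_const, nsmul_eq_mul, Finset.card_univ, mul_comm]
  have h1 : b * dev e w ≤ γ / 8 * Fintype.card V := by
    calc b * dev e w ≤ b * (γ / 8 / (b + 1) * Fintype.card V) := by gcongr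
      _ = (b / (b + 1)) * (γ / 8 * Fintype.card V) := by field_simp
      _ ≤ 1 * (γ / 8 * Fintype.card V) := by
          refine mul_le_mul_of_nonneg_right ?_ (by positivity)
          rw [div_le_one (by linarith)]
          linarith
      _ = _ := one_mul _
  have h2 := (al_bd (r := r) hε0 hε8 I).2
  have h3 : al r ε I + γ / 8 ≤ γ / 4 + γ / 12 + γ / 8 := by
    have : 8 / 3 * (r : ℝ) * ε = γ / 12 := by
      rw [mul_assoc, hεr]; ring
    linarith
  have h4 : (al r ε I + γ / 8) * Fintype.card V ≤ (γ / 4 + γ / 12 + γ / 8) * Fintype.card V :=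
    mul_le_mul_of_nonneg_right h3 hV
  have h5 : γ * Fintype.card V ≤ γ₀ * Fintype.card V :=
    mul_le_mul_of_nonneg_right (min_le_left _ _) hV
  have h6 : 0 ≤ γ * Fintype.card V := by positivity
  change ((surv e M).card : ℝ) ≤ _
  nlinarith

end Pool.Agent.Nibble
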